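import Pool.Agent.Helper13.NS.Count

set_option autoImplicit false

namespace Pool.Agent.Helper13.NS

open Finset Classical

theorem sum_ind_le (s : Finset ℕ) (P : ℕ → Prop) [DecidablePred P]
    (hu : ∀ x y, P x → P y → x = y)
    (Q : Prop) [Decidable Q] (hQ : ∀ x, P x → Q) :
    (∑ x ∈ s, (if P x then 1 else 0)) ≤ (if Q then 1 else 0) := by
  rw [← Finset.card_filter]
  by_cases h : ∃ x, P x
  · obtain ⟨x, hx⟩ := h
    rw [if_pos (hQ x hx), Finset.card_le_one]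
    intro a ha b hb
    exact hu a b (Finset.mem_filter.1 ha).2 (Finset.mem_filter.1 hb).2
  · rw [Finset.filter_eq_empty_iff.2]
    · simp
    · intro x _ hx
      exact h ⟨x, hx⟩

namespace St

variable {G : Type} [AddCommGroup G] (A : St G)

theorem ax_sum (W : Finset ℕ) (hW : ∀ w ∈ W, A.Unused w) (h : ℕ → ℕ)
    (hh : ∀ x, 1 ≤ x → x < A.C1 → A.pd x + A.qd x + A.nw x ≤ 1 + A.od x + h x) :
    (1 + A.p + A.q + A.r + A.s) + A.s + W.card ≤ 2 * A.C1 + ∑ x ∈ Ico 1 A.C1, h x := by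
  have h1 := A.aci_count W hW
  obtain ⟨n, hn⟩ : ∃ n, A.C1 = n + 1 := ⟨A.C1 - 1, by have := A.two1; omega⟩
  have hp := A.p_eq
  have hq := A.q_eq
  have hs := A.s_eq
  have e1 : ∑ x ∈ Ico 1 A.C1, h x = ∑ i ∈ range n, h (i + 1) := by
    rw [hn, Finset.sum_Ico_eq_sum_range]
    simp only [Nat.add_sub_cancel]
    apply Finset.sum_congr rfl
    intro i _
    rw [Nat.add_comm]
  rw [hn, Finset.sum_range_succ'] at h1 hp hq hs
  rw [A.pd_zero] at hp
  rw [A.qd_zero] at hq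
  simp only [if_true, Nat.add_eq_zero_iff, one_ne_zero, and_false, if_false] at hs
  have hr : (A.K 0).card = A.r := rfl
  rw [hr] at h1
  have h2 : ∑ i ∈ range n, (A.K (i + 1)).card =
      ∑ i ∈ range n, A.nw (i + 1) + ∑ i ∈ range n, A.od (i + 1) := by
    rw [← Finset.sum_add_distrib]
    exact Finset.sum_congr rfl (fun i _ => A.K_card (i + 1))
  have h3 : ∑ i ∈ range n, (A.pd (i + 1) + A.qd (i + 1) + A.nw (i + 1)) ≤
      ∑ i ∈ range n, (1 + A.od (i + 1) + h (i + 1)) := by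
    apply Finset.sum_le_sum
    intro i hi
    have := Finset.mem_range.1 hi
    exact hh (i + 1) (by omega) (by omega)
  simp only [Finset.sum_add_distrib, Finset.sum_const, Finset.card_range, smul_eq_mul,
    mul_one] at h3
  rw [e1, hn]
  omega

/-- the event of a new slice corner -/
theorem nw_cases (x : ℕ) (hx : 1 ≤ x) : A.nw x = 0 ∨
    (A.nw x = 1 ∧ ∃ t2 t3, (t2, t3) ∈ A.K x ∧ A.S (x - 1) t2 t3) := by
  have h1 := A.nw_le_one x hx
  rcases Nat.eq_zero_or_pos (A.nw x) with h | h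
  · exact Or.inl h
  · right
    refine ⟨by omega, ?_⟩
    rw [nw, gt_iff_lt, Finset.card_pos] at h
    obtain ⟨⟨a, b⟩, hc⟩ := h
    rw [Finset.mem_filter] at hc
    exact ⟨a, b, hc.1, hc.2⟩

theorem tHit_hii {x t2 t3 : ℕ} (hx : 1 ≤ x) (hT : (t2, t3) ∈ A.K x)
    (hT1 : A.S (x - 1) t2 t3) (h : A.THit x t3) :
    (∃ b c k, A.HII x b c k) ∧ (A.x3 = 0 ∨ A.y3 = 0) := by
  obtain ⟨b, k, hb, n1, n2, n3, e, hk⟩ := h
  have hTk := A.mem_K.1 hT
  obtain ⟨h1, h2⟩ := A.tHit (A.full_rep hx hT hT1) hx hTk.1 hTk.2.1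
    hTk.2.2.2.2 hb n1 n2 n3 e hk
  exact ⟨⟨b, t3, k, h1⟩, h2⟩

theorem ax1 (W : Finset ℕ) (hW : ∀ w ∈ W, A.Unused w) :
    (1 + A.p + A.q + A.r + A.s) + A.s + W.card ≤ 2 * A.C1 +
      (if A.x3 = 0 ∨ A.y3 = 0 then 1 else 0) + (if A.x2 = 0 ∨ A.z2 = 0 then 1 else 0) := by
  set P2 : ℕ → Prop := fun x => (∃ b c k, A.HII x b c k) ∧ (A.x3 = 0 ∨ A.y3 = 0) with hP2
  set P1 : ℕ → Prop := fun x => (∃ b c k, A.swap23.HII x b c k) ∧ (A.x2 = 0 ∨ A.z2 = 0)
    with hP1
  have h0 := A.ax_sum W hW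
    (fun x => (if P2 x then 1 else 0) + (if P1 x then 1 else 0)) ?_
  · rw [Finset.sum_add_distrib] at h0
    have h1 := sum_ind_le (Ico 1 A.C1) P2
      (by rintro x y ⟨⟨b, c, k, h⟩, _⟩ ⟨⟨b', c', k', h'⟩, _⟩; exact A.hii_unique h h')
      (A.x3 = 0 ∨ A.y3 = 0) (fun x h => h.2)
    have h2 := sum_ind_le (Ico 1 A.C1) P1
      (by rintro x y ⟨⟨b, c, k, h⟩, _⟩ ⟨⟨b', c', k', h'⟩, _⟩
          exact A.swap23.hii_unique h h')
      (A.x2 = 0 ∨ A.z2 = 0) (fun x h => h.2)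
    omega
  · intro x hx _
    rcases A.nw_cases x hx with h | ⟨h, t2, t3, hT, hT1⟩
    · rw [h]
      rcases A.hit_V hx h with h1 | ⟨h1, b, c, k, μ, h2⟩
      · split_ifs <;> omega
      · rcases VHit.paid A h2 with h3 | h3
        · have : P2 x := ⟨⟨b, c, k, h3.1⟩, h3.2⟩
          rw [if_pos this]; split_ifs <;> omega
        · have : P1 x := ⟨⟨c, b, μ, h3.1⟩, h3.2⟩
          rw [if_pos this]; split_ifs <;> omega
    · have h1 := A.hit_T hx hT hT1
      have h2 : A.THit x t3 → P2 x := fun h => A.tHit_hii hx hT hT1 h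
      have h3 : A.swap23.THit x t2 → P1 x := fun h =>
        A.swap23.tHit_hii (t2 := t3) (t3 := t2) hx (A.mem_K_swap23.2 hT) hT1 h
      by_cases c1 : A.THit x t3 <;> by_cases c2 : A.swap23.THit x t2
      · simp only [if_pos c1, if_pos c2, if_pos (h2 c1), if_pos (h3 c2)] at h1 ⊢; omega
      · simp only [if_pos c1, if_neg c2, if_pos (h2 c1)] at h1 ⊢; split_ifs <;> omega
      · simp only [if_neg c1, if_pos c2, if_pos (h3 c2)] at h1 ⊢; split_ifs <;> omega
      · simp only [if_neg c1, if_neg c2] at h1 ⊢; split_ifs <;> omega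

theorem ax1_one (W : Finset ℕ) (hW : ∀ w ∈ W, A.Unused w)
    (hV : ∀ x b c k μ, A.VHit x b c k μ → A.HII x b c k → A.swap23.HII x c b μ)
    (hTn : ∀ x t2 t3, 1 ≤ x → (t2, t3) ∈ A.K x → A.S (x - 1) t2 t3 → ¬ A.THit x t3) :
    (1 + A.p + A.q + A.r + A.s) + A.s + W.card ≤ 2 * A.C1 + 1 := by
  set P1 : ℕ → Prop := fun x => (∃ b c k, A.swap23.HII x b c k) with hP1
  have h0 := A.ax_sum W hW (fun x => (if P1 x then 1 else 0)) ?_
  · have h2 := sum_ind_le (Ico 1 A.C1) P1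
      (by rintro x y ⟨b, c, k, h⟩ ⟨b', c', k', h'⟩
          exact A.swap23.hii_unique h h')
      True (fun x h => trivial)
    simp only [if_true] at h2
    omega
  · intro x hx _
    rcases A.nw_cases x hx with h | ⟨h, t2, t3, hT, hT1⟩
    · rw [h]
      rcases A.hit_V hx h with h1 | ⟨h1, b, c, k, μ, h2⟩
      · split_ifs <;> omega
      · have h3 : A.swap23.HII x c b μ := by
          rcases h2.types with h3 | h3
          · exact hV x b c k μ h2 h3
          · exact h3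
        have : P1 x := ⟨c, b, μ, h3⟩
        rw [if_pos this]; omega
    · have h1 := A.hit_T hx hT hT1
      have h3 : A.swap23.THit x t2 → P1 x := fun h =>
        (A.swap23.tHit_hii (t2 := t3) (t3 := t2) hx (A.mem_K_swap23.2 hT) hT1 h).1
      have c1 := hTn x t2 t3 hx hT hT1
      by_cases c2 : A.swap23.THit x t2
      · simp only [if_neg c1, if_pos c2, if_pos (h3 c2)] at h1 ⊢; omega
      · simp only [if_neg c1, if_neg c2] at h1 ⊢; split_ifs <;> omega

/-- if `y3 = 0` the slot `x3` is unused -/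
theorem unused_x3 (h : A.y3 = 0) : A.Unused A.x3 := by
  refine ⟨A.ltC1 A.s3, ?_⟩
  intro x y z hK e
  rw [mem_K] at hK
  obtain ⟨hy, hz, n1, n2, n3⟩ := hK
  have hz3 := A.ltC3 n2
  obtain ⟨u, hu⟩ := Nat.exists_eq_add_of_lt hz3
  have f3 := A.f3
  rw [h, hu] at f3
  have h4 : A.S x y 0 := A.down n3 le_rfl le_rfl (by omega)
  have h5 : A.S 0 0 (u + 1) := (A.hC3 _).2 (by omega)
  have := A.inj h4 h5 (by linear_combination (norm := module) e - f3)
  omega

theorem unused_x2 (h : A.z2 = 0) : A.Unused A.x2 := by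
  have := A.swap23.unused_x3 h
  refine ⟨this.1, ?_⟩
  intro x y z hK e
  exact this.2 x z y (A.mem_K_swap23.2 hK) (by
    show x • A.e1 + z • A.e3 + y • A.e2 = A.x2 • A.e1
    linear_combination (norm := module) e)

end St

end Pool.Agent.Helper13.NS
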