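import Pool.Agent.Helper13.NS.Stair

set_option autoImplicit false

namespace Pool.Agent.Helper13.NS

open Finset Classical

/-- existence of a corner below a non-member -/
theorem exists_cor {D : ℕ → ℕ → Prop} (hD : ∀ {a b a' b'}, D a b → a' ≤ a → b' ≤ b → D a' b')
    {Y Z : ℕ} (h : ¬ D Y Z) (h0 : D Y 0) (h1 : D 0 Z) :
    ∃ y z, y ≤ Y ∧ z ≤ Z ∧ 1 ≤ y ∧ 1 ≤ z ∧ ¬ D y z ∧ D (y - 1) z ∧ D y (z - 1) := by
  have e1 : ∃ y, ¬ D y Z := ⟨Y, h⟩
  set y := Nat.find e1 with hy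
  have hy1 : ¬ D y Z := Nat.find_spec e1
  have hyY : y ≤ Y := Nat.find_min' e1 h
  have hy0 : 1 ≤ y := by
    rcases Nat.eq_zero_or_pos y with h2 | h2
    · rw [h2] at hy1; exact absurd h1 hy1
    · exact h2
  have hym : D (y - 1) Z := by
    by_contra h3
    have := Nat.find_min' e1 h3
    omega
  have e2 : ∃ z, ¬ D y z := ⟨Z, hy1⟩
  set z := Nat.find e2 with hz
  have hz1 : ¬ D y z := Nat.find_spec e2
  have hzZ : z ≤ Z := Nat.find_min' e2 hy1
  have hz0 : 1 ≤ z := by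
    rcases Nat.eq_zero_or_pos z with h2 | h2
    · rw [h2] at hz1; exact absurd (hD h0 hyY le_rfl) hz1
    · exact h2
  have hzm : D y (z - 1) := by
    by_contra h3
    have := Nat.find_min' e2 h3
    omega
  exact ⟨y, z, hyY, hzZ, hy0, hz0, hz1, hD hym le_rfl hzZ, hzm⟩

namespace St

variable {G : Type} [AddCommGroup G] (A : St G)

/-- corners of the slice at `x` -/
noncomputable def K (x : ℕ) : Finset (ℕ × ℕ) := cor (fun y z => A.S x y z) A.C2 A.C3

theorem mem_K {x y z : ℕ} : (y, z) ∈ A.K x ↔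
    1 ≤ y ∧ 1 ≤ z ∧ ¬ A.S x y z ∧ A.S x (y - 1) z ∧ A.S x y (z - 1) := by
  rw [K, mem_cor]
  constructor
  · exact fun h => h.2
  · intro h
    exact ⟨⟨A.ltC2 h.2.2.2.2, A.ltC3 h.2.2.2.1⟩, h⟩

theorem aci_slot {x y z : ℕ} (h : (y, z) ∈ A.K x) :
    ∃ n, n < A.C1 ∧ x • A.e1 + y • A.e2 + z • A.e3 = n • A.e1 := by
  rw [mem_K] at h
  obtain ⟨hy, hz, h1, h2, h3⟩ := h
  obtain ⟨a, b, c, hs, e⟩ := A.surj (x • A.e1 + y • A.e2 + z • A.e3)
  have hb := A.rep_y h1 hy h2 hs e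
  have hc := A.rep_z h1 hz h3 hs e
  subst hb hc
  exact ⟨a, (A.hC1 a).1 hs, by rw [e]; module⟩

theorem aci_inj_le {x y z x' y' z' : ℕ} (h : (y, z) ∈ A.K x) (h' : (y', z') ∈ A.K x')
    (hx : x ≤ x')
    (e : x • A.e1 + y • A.e2 + z • A.e3 = x' • A.e1 + y' • A.e2 + z' • A.e3) :
    x = x' ∧ y = y' ∧ z = z' := by
  rw [mem_K] at h h'
  obtain ⟨hy, hz, h1, h2, h3⟩ := h
  obtain ⟨hy', hz', h1', h2', h3'⟩ := h'
  obtain ⟨dx, rfl⟩ := Nat.exists_eq_add_of_le hx
  rcases le_or_gt y y' with hyy | hyy <;> rcases le_or_gt z z' with hzz | hzz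
  · obtain ⟨dy, rfl⟩ := Nat.exists_eq_add_of_le hyy
    obtain ⟨dz, rfl⟩ := Nat.exists_eq_add_of_le hzz
    have h4 : A.S dx dy dz := A.down h2' (by omega) (by omega) (by omega)
    have := A.inj A.zero_mem h4 (by linear_combination (norm := module) e)
    omega
  · obtain ⟨dy, rfl⟩ := Nat.exists_eq_add_of_le hyy
    obtain ⟨dz, rfl⟩ := Nat.exists_eq_add_of_lt hzz
    have h4 : A.S dx dy 0 := A.down h2' (by omega) (by omega) (by omega)
    have h5 : A.S 0 0 (dz + 1) := A.down h3 (by omega) (by omega) (by omega)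
    have := A.inj h5 h4 (by linear_combination (norm := module) e)
    omega
  · obtain ⟨dy, rfl⟩ := Nat.exists_eq_add_of_lt hyy
    obtain ⟨dz, rfl⟩ := Nat.exists_eq_add_of_le hzz
    have h4 : A.S dx 0 dz := A.down h3' (by omega) (by omega) (by omega)
    have h5 : A.S 0 (dy + 1) 0 := A.down h2 (by omega) (by omega) (by omega)
    have := A.inj h5 h4 (by linear_combination (norm := module) e)
    omega
  · obtain ⟨dy, rfl⟩ := Nat.exists_eq_add_of_lt hyy
    obtain ⟨dz, rfl⟩ := Nat.exists_eq_add_of_lt hzz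
    have h4 : A.S dx 0 0 := A.down h3' (by omega) (by omega) (by omega)
    have h5 : A.S 0 (dy + 1) (dz + 1) := A.down h2 (by omega) (by omega) (by omega)
    have := A.inj h5 h4 (by linear_combination (norm := module) e)
    omega

theorem aci_inj {x y z x' y' z' : ℕ} (h : (y, z) ∈ A.K x) (h' : (y', z') ∈ A.K x')
    (e : x • A.e1 + y • A.e2 + z • A.e3 = x' • A.e1 + y' • A.e2 + z' • A.e3) :
    x = x' ∧ y = y' ∧ z = z' := by
  rcases le_total x x' with hx | hx
  · exact A.aci_inj_le h h' hx e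
  · have := A.aci_inj_le h' h hx e.symm
    omega

/-- a slot `w < C1` is unused -/
def Unused (w : ℕ) : Prop :=
  w < A.C1 ∧ ∀ x y z, (y, z) ∈ A.K x → x • A.e1 + y • A.e2 + z • A.e3 ≠ w • A.e1

theorem aci_count (W : Finset ℕ) (hW : ∀ w ∈ W, A.Unused w) :
    (∑ x ∈ range A.C1, (A.K x).card) + W.card ≤ A.C1 := by
  classical
  have hslot : ∀ x y z, (y, z) ∈ A.K x → ∃ n, n < A.C1 ∧
      x • A.e1 + y • A.e2 + z • A.e3 = n • A.e1 := fun x y z h => A.aci_slot h
  let f : (Σ _ : ℕ, ℕ × ℕ) → ℕ := fun u =>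
    if h : (u.2.1, u.2.2) ∈ A.K u.1 then Classical.choose (hslot u.1 u.2.1 u.2.2 h) else 0
  have hf : ∀ u : (Σ _ : ℕ, ℕ × ℕ), u ∈ (range A.C1).sigma (fun x => A.K x) →
      f u < A.C1 ∧ u.1 • A.e1 + u.2.1 • A.e2 + u.2.2 • A.e3 = (f u) • A.e1 := by
    intro u hu
    rw [Finset.mem_sigma] at hu
    have h : (u.2.1, u.2.2) ∈ A.K u.1 := hu.2
    have := Classical.choose_spec (hslot u.1 u.2.1 u.2.2 h)
    simp only [f, dif_pos h]
    exact this
  have hinj : Set.InjOn f ((range A.C1).sigma (fun x => A.K x) : Finset _) := by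
    intro u hu v hv huv
    have h1 := (hf u hu).2
    have h2 := (hf v hv).2
    have hu' := (Finset.mem_sigma.1 hu).2
    have hv' := (Finset.mem_sigma.1 hv).2
    have h3 := A.aci_inj (x := u.1) (y := u.2.1) (z := u.2.2) (x' := v.1) (y' := v.2.1)
      (z' := v.2.2) hu' hv' (by rw [h1, h2, huv])
    obtain ⟨a, b, c⟩ := u
    obtain ⟨a', b', c'⟩ := v
    simp only at h3
    obtain ⟨rfl, rfl, rfl⟩ := h3
    rfl
  have himg : (((range A.C1).sigma (fun x => A.K x)).image f) ∪ W ⊆ range A.C1 := by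
    intro n hn
    rw [Finset.mem_union] at hn
    rcases hn with hn | hn
    · obtain ⟨u, hu, rfl⟩ := Finset.mem_image.1 hn
      exact Finset.mem_range.2 (hf u hu).1
    · exact Finset.mem_range.2 (hW n hn).1
  have hdisj : Disjoint (((range A.C1).sigma (fun x => A.K x)).image f) W := by
    rw [Finset.disjoint_left]
    intro n hn hn'
    obtain ⟨u, hu, rfl⟩ := Finset.mem_image.1 hn
    exact (hW _ hn').2 u.1 u.2.1 u.2.2 (Finset.mem_sigma.1 hu).2 (hf u hu).2
  have := Finset.card_le_card himg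
  rw [Finset.card_union_of_disjoint hdisj, Finset.card_image_of_injOn hinj,
    Finset.card_sigma, Finset.card_range] at this
  exact this

end St

end Pool.Agent.Helper13.NS
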