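import Mathlib

/-!
# Standard monomials of the toric ideal of a 4-generated numerical semigroup

`a : Fin 4 → ℕ` are the generators, `a 0 = m` is the multiplicity.  Exponent vectors of the
last three variables are triples `(x, y, z) : ℕ × ℕ × ℕ`.
-/

set_option autoImplicit false

namespace Pool.Agent.Helper13.NS

/-- weight of an exponent vector of the variables 1, 2, 3 -/
def wt (a : Fin 4 → ℕ) (u : ℕ × ℕ × ℕ) : ℕ := a 1 * u.1 + a 2 * u.2.1 + a 3 * u.2.2

/-- the monomial order: weight first, ties broken lexicographically -/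
def mlt (a : Fin 4 → ℕ) (u v : ℕ × ℕ × ℕ) : Prop :=
  wt a u < wt a v ∨ (wt a u = wt a v ∧ (u.1 < v.1 ∨ (u.1 = v.1 ∧ u.2.1 < v.2.1)))

/-- standard monomials: the least element of each residue class modulo `a 0` -/
def Std (a : Fin 4 → ℕ) : Set (ℕ × ℕ × ℕ) :=
  {u | ∀ v, wt a v ≡ wt a u [MOD a 0] → v ≠ u → mlt a u v}

/-- minimal non-standard monomials -/
def Gens (a : Fin 4 → ℕ) : Set (ℕ × ℕ × ℕ) :=
  {u | u ∉ Std a ∧ ∀ v, v ≤ u → v ≠ u → v ∈ Std a}

end Pool.Agent.Helper13.NS
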