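import Pool.Agent.Helper13.NS.S1
import Pool.Agent.Helper60.NSVol0
import Pool.Agent.Helper75.NSModB
import Pool.Agent.Helper60.NSKill
import Pool.Agent.Helper1.NSVol1Main

set_option autoImplicit false

namespace Pool.Agent.Helper13.NS

open Finset Classical

section planar

variable {D : ℕ → ℕ → Prop} (hD : ∀ {a b a' b'}, D a b → a' ≤ a → b' ≤ b → D a' b')

include hD in
theorem cor_inj1 {X Y a b b' : ℕ} (h : (a, b) ∈ cor D X Y) (h' : (a, b') ∈ cor D X Y) :
    b = b' := by
  rw [mem_cor] at h h'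
  obtain ⟨_, _, _, n0, n1, n2⟩ := h
  obtain ⟨_, _, _, n0', n1', n2'⟩ := h'
  simp only at *
  rcases lt_trichotomy b b' with h1 | h1 | h1
  · exact absurd (hD n2' le_rfl (by omega)) n0
  · exact h1
  · exact absurd (hD n2 le_rfl (by omega)) n0'

include hD in
theorem cor_inj2 {X Y a a' b : ℕ} (h : (a, b) ∈ cor D X Y) (h' : (a', b) ∈ cor D X Y) :
    a = a' := by
  rw [mem_cor] at h h'
  obtain ⟨_, _, _, n0, n1, n2⟩ := h
  obtain ⟨_, _, _, n0', n1', n2'⟩ := h'
  simp only at *
  rcases lt_trichotomy a a' with h1 | h1 | h1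
  · exact absurd (hD n1' (by omega) le_rfl) n0
  · exact h1
  · exact absurd (hD n1 (by omega) le_rfl) n0'

include hD in
theorem cor_fst_le {X Y x : ℕ} :
    ((cor D X Y).filter (fun c => c.1 ≤ x)).card ≤ x := by
  have : ((cor D X Y).filter (fun c => c.1 ≤ x)).card ≤ (Icc 1 x).card := by
    apply Finset.card_le_card_of_injOn Prod.fst
    · intro c hc
      rw [Finset.mem_coe, Finset.mem_filter, mem_cor] at hc
      rw [Finset.coe_Icc, Set.mem_Icc]
      exact ⟨hc.1.2.1, hc.2⟩
    · rintro ⟨a, b⟩ hc ⟨a', b'⟩ hc' h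
      rw [Finset.mem_coe, Finset.mem_filter] at hc hc'
      simp only at h
      subst h
      rw [cor_inj1 hD hc.1 hc'.1]
  simpa using this

include hD in
theorem cor_snd_lt {X Y y : ℕ} :
    ((cor D X Y).filter (fun c => c.2 < y)).card ≤ y - 1 := by
  have : ((cor D X Y).filter (fun c => c.2 < y)).card ≤ (Ico 1 y).card := by
    apply Finset.card_le_card_of_injOn Prod.snd
    · intro c hc
      rw [Finset.mem_coe, Finset.mem_filter, mem_cor] at hc
      rw [Finset.coe_Ico, Set.mem_Ico]
      exact ⟨hc.1.2.2.1, hc.2⟩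
    · rintro ⟨a, b⟩ hc ⟨a', b'⟩ hc' h
      rw [Finset.mem_coe, Finset.mem_filter] at hc hc'
      simp only at h
      subst h
      rw [cor_inj2 hD hc.1 hc'.1]
  simpa using this

include hD in
theorem tri_mem {X Y x y : ℕ} (hy : 1 ≤ y) (h : x + y ≤ (cor D X Y).card) :
    D x y := by
  by_contra hn
  have h1 : (cor D X Y).card ≤ ((cor D X Y).filter (fun c => c.1 ≤ x)).card +
      ((cor D X Y).filter (fun c => c.2 < y)).card := by
    refine le_trans (Finset.card_le_card ?_) (Finset.card_union_le _ _)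
    rintro ⟨a, b⟩ hc
    rw [Finset.mem_union, Finset.mem_filter, Finset.mem_filter]
    by_cases h2 : a ≤ x
    · exact Or.inl ⟨hc, h2⟩
    · right
      refine ⟨hc, ?_⟩
      by_contra h3
      have := (mem_cor.1 hc).2.2.2.2.1
      simp only at this h3
      exact hn (hD this (by omega) (by omega))
  have h2 := cor_fst_le (D := D) hD (X := X) (Y := Y) (x := x)
  have h3 := cor_snd_lt (D := D) hD (X := X) (Y := Y) (y := y)
  omega

include hD in
theorem cor_card_lt1 {X Y : ℕ} (hX : 1 ≤ X) : (cor D X Y).card < X := by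
  have h1 : (cor D X Y).card ≤ ((cor D X Y).filter (fun c => c.1 ≤ X - 1)).card := by
    apply Finset.card_le_card
    intro c hc
    rw [Finset.mem_filter]
    have := (mem_cor.1 hc).1.1
    exact ⟨hc, by omega⟩
  have h2 := cor_fst_le (D := D) hD (X := X) (Y := Y) (x := X - 1)
  omega

include hD in
theorem cor_card_lt2 {X Y : ℕ} (hY : 1 ≤ Y) : (cor D X Y).card < Y := by
  have h1 : (cor D X Y).card ≤ ((cor D X Y).filter (fun c => c.2 < Y)).card := by
    apply Finset.card_le_card
    intro c hc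
    rw [Finset.mem_filter]
    have := (mem_cor.1 hc).1.2
    exact ⟨hc, by omega⟩
  have h2 := cor_snd_lt (D := D) hD (X := X) (Y := Y) (y := Y)
  omega

end planar

namespace St

variable {G : Type} [AddCommGroup G] (A : St G)

theorem p_lt1 : A.p < A.C1 :=
  cor_card_lt1 (D := fun x y => A.S x y 0) (fun h h1 h2 => A.down h h1 h2 le_rfl)
    (by have := A.two1; omega)
theorem p_lt2 : A.p < A.C2 :=
  cor_card_lt2 (D := fun x y => A.S x y 0) (fun h h1 h2 => A.down h h1 h2 le_rfl)
    (by have := A.two2; omega)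
theorem q_lt3 : A.q < A.C3 :=
  cor_card_lt2 (D := fun x z => A.S x 0 z) (fun h h1 h2 => A.down h h1 le_rfl h2)
    (by have := A.two3; omega)

/-- the members of `S` as a finset -/
noncomputable def U : Finset (ℕ × ℕ × ℕ) :=
  (range A.C1 ×ˢ range A.C2 ×ˢ range A.C3).filter (fun u => A.S u.1 u.2.1 u.2.2)

theorem mem_U (x y z : ℕ) : (x, y, z) ∈ A.U ↔ A.S x y z := by
  rw [U, Finset.mem_filter, Finset.mem_product, Finset.mem_product, Finset.mem_range,
    Finset.mem_range, Finset.mem_range]
  constructor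
  · exact fun h => h.2
  · intro h
    exact ⟨⟨A.ltC1 h, A.ltC2 h, A.ltC3 h⟩, h⟩

theorem Ebox_sub (hs : A.s = 0) : Ebox A.p A.q A.r A.C1 A.C2 A.C3 ⊆ A.U := by
  rintro ⟨x, y, z⟩ h
  rw [Ebox, Finset.mem_filter, Finset.mem_product, Finset.mem_product, Finset.mem_range,
    Finset.mem_range, Finset.mem_range] at h
  obtain ⟨⟨hx, hy, hz⟩, h12, h13, h23⟩ := h
  simp only at hx hy hz h12 h13 h23
  rw [mem_U]
  have a12 : A.S x y 0 := by
    rcases Nat.eq_zero_or_pos x with h0 | h0
    · subst h0; exact (A.hC2 y).2 hy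
    · rcases Nat.eq_zero_or_pos y with h1 | h1
      · subst h1; exact (A.hC1 x).2 hx
      · exact tri_mem (D := fun x y => A.S x y 0) (X := A.C1) (Y := A.C2)
          (fun h h1 h2 => A.down h h1 h2 le_rfl) h1 (by
            have : A.p = (cor (fun x y => A.S x y 0) A.C1 A.C2).card := rfl
            omega)
  have a13 : A.S x 0 z := by
    rcases Nat.eq_zero_or_pos x with h0 | h0
    · subst h0; exact (A.hC3 z).2 hz
    · rcases Nat.eq_zero_or_pos z with h1 | h1
      · subst h1; exact (A.hC1 x).2 hx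
      · exact tri_mem (D := fun x z => A.S x 0 z) (X := A.C1) (Y := A.C3)
          (fun h h1 h2 => A.down h h1 le_rfl h2) h1 (by
            have : A.q = (cor (fun x z => A.S x 0 z) A.C1 A.C3).card := rfl
            omega)
  have a23 : A.S 0 y z := by
    rcases Nat.eq_zero_or_pos y with h0 | h0
    · subst h0; exact (A.hC3 z).2 hz
    · rcases Nat.eq_zero_or_pos z with h1 | h1
      · subst h1; exact (A.hC2 y).2 hy
      · exact tri_mem (D := fun y z => A.S 0 y z) (X := A.C2) (Y := A.C3)
          (fun h h1 h2 => A.down h le_rfl h1 h2) h1 (by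
            have : A.r = (cor (fun y z => A.S 0 y z) A.C2 A.C3).card := rfl
            omega)
  exact A.hfull_s0 hs x y z a12 a13 a23

theorem main0 [Fintype G] (h4 : 4 ≤ Fintype.card G) (hs : A.s = 0) (hqp : A.q ≤ A.p)
    (hrq : A.r ≤ A.q) : (1 + A.p + A.q + A.r) ^ 2 ≤ 4 * Fintype.card G := by
  have hU := card_U A A.U A.mem_U
  have hE := Finset.card_le_card (A.Ebox_sub hs)
  by_cases h5 : 5 ≤ 1 + A.p + A.q + A.r
  · have st1 := A.star
    have st2 := A.swap12.star
    have st3 := A.swap23.swap12.star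
    have hp : A.swap23.swap12.p = A.q := by rw [p_swap12, p_swap23]
    have hq : A.swap23.swap12.q = A.r := by rw [q_swap12, r_swap23]
    have hr : A.swap23.swap12.r = A.p := by rw [r_swap12, q_swap23]
    have hs2 : A.swap12.s = 0 := by rw [s_swap12, hs]
    have hs3 : A.swap23.swap12.s = 0 := by rw [s_swap12, s_swap23, hs]
    rw [hs] at st1
    rw [hs2, p_swap12, q_swap12, r_swap12] at st2
    rw [hs3, hp, hq, hr] at st3
    have a1 : A.swap12.C1 = A.C2 := rfl
    have b1 : A.swap23.swap12.C1 = A.C3 := rfl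
    rw [a1] at st2
    rw [b1] at st3
    have sum0 := A.sum_s0 hs
    have k1 : 1 + A.p + A.q + A.r ≤ 2 * A.C1 + 2 := by
      split_ifs at st1 <;> omega
    have k2 : 1 + A.p + A.q + A.r ≤ 2 * A.C2 + 2 := by
      split_ifs at st2 <;> omega
    have k3 : 1 + A.p + A.q + A.r ≤ 2 * A.C3 + 2 := by
      split_ifs at st3 <;> omega
    rcases Ebox_card A.p A.q A.r A.C1 A.C2 A.C3 A.p_lt1 A.p_lt2 A.q_lt3 hqp hrq h5 sum0
      k1 k2 k3 with h | ⟨h1, h2, h3, h6⟩
    · omega
    · rcases Nat.lt_or_ge (Ebox A.p A.q A.r A.C1 A.C2 A.C3).card A.U.card with h7 | h7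
      · omega
      · exfalso
        have heq : Ebox A.p A.q A.r A.C1 A.C2 A.C3 = A.U :=
          Finset.eq_of_subset_of_card_le (A.Ebox_sub hs) h7
        have hq2 : A.q = A.p := h1.symm
        refine kill A A.p (by omega) ?_ A.p_lt1 A.p_lt2 (by have := A.q_lt3; omega) h3
        intro x y z
        rw [← mem_U, ← heq, Ebox, Finset.mem_filter, Finset.mem_product, Finset.mem_product,
          Finset.mem_range, Finset.mem_range, Finset.mem_range, h2, hq2]
  · have : 1 + A.p + A.q + A.r ≤ 4 := by omega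
    have : (1 + A.p + A.q + A.r) ^ 2 ≤ 4 ^ 2 := Nat.pow_le_pow_left this 2
    omega

theorem main_s0 [Fintype G] (h4 : 4 ≤ Fintype.card G) (hs : A.s = 0) :
    (1 + A.p + A.q + A.r) ^ 2 ≤ 4 * Fintype.card G := by
  rcases le_total A.q A.p with h1 | h1 <;> rcases le_total A.r A.q with h2 | h2 <;>
    rcases le_total A.r A.p with h3 | h3
  · exact A.main0 h4 hs h1 h2
  · exact A.main0 h4 hs h1 h2
  · have := A.swap12.main0 h4 (by rw [s_swap12, hs]) (by rw [p_swap12, q_swap12]; exact h3)
      (by rw [q_swap12, r_swap12]; exact h2)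
    rw [p_swap12, q_swap12, r_swap12] at this
    rw [show 1 + A.p + A.q + A.r = 1 + A.p + A.r + A.q by ring]
    exact this
  · have := A.swap12.swap23.main0 h4 (by rw [s_swap23, s_swap12, hs])
      (by rw [p_swap23, q_swap23, p_swap12, q_swap12]; exact h3)
      (by rw [q_swap23, r_swap23, p_swap12, r_swap12]; exact h1)
    rw [p_swap23, q_swap23, r_swap23, p_swap12, q_swap12, r_swap12] at this
    rw [show 1 + A.p + A.q + A.r = 1 + A.r + A.p + A.q by ring]
    exact this
  · have := A.swap23.main0 h4 (by rw [s_swap23, hs]) (by rw [p_swap23, q_swap23]; exact h1)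
      (by rw [q_swap23, r_swap23]; exact h3)
    rw [p_swap23, q_swap23, r_swap23] at this
    rw [show 1 + A.p + A.q + A.r = 1 + A.q + A.p + A.r by ring]
    exact this
  · have := A.swap23.swap12.main0 h4 (by rw [s_swap12, s_swap23, hs])
      (by rw [p_swap12, q_swap12, p_swap23, r_swap23]; exact h2)
      (by rw [q_swap12, r_swap12, r_swap23, q_swap23]; exact h3)
    rw [p_swap12, q_swap12, r_swap12, p_swap23, q_swap23, r_swap23] at this
    rw [show 1 + A.p + A.q + A.r = 1 + A.q + A.r + A.p by ring]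
    exact this
  · have := A.swap23.swap12.swap23.main0 h4 (by rw [s_swap23, s_swap12, s_swap23, hs])
      (by rw [p_swap23, q_swap23, p_swap12, q_swap12, p_swap23, r_swap23]; exact h2)
      (by rw [q_swap23, r_swap23, p_swap12, r_swap12, p_swap23, q_swap23]; exact h1)
    rw [p_swap23, q_swap23, r_swap23, p_swap12, q_swap12, r_swap12, p_swap23, q_swap23,
      r_swap23] at this
    rw [show 1 + A.p + A.q + A.r = 1 + A.r + A.q + A.p by ring]
    exact this
  · have := A.swap23.swap12.swap23.main0 h4 (by rw [s_swap23, s_swap12, s_swap23, hs])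
      (by rw [p_swap23, q_swap23, p_swap12, q_swap12, p_swap23, r_swap23]; exact h2)
      (by rw [q_swap23, r_swap23, p_swap12, r_swap12, p_swap23, q_swap23]; exact h1)
    rw [p_swap23, q_swap23, r_swap23, p_swap12, q_swap12, r_swap12, p_swap23, q_swap23,
      r_swap23] at this
    rw [show 1 + A.p + A.q + A.r = 1 + A.r + A.q + A.p by ring]
    exact this

theorem main1 [Fintype G] {t1 t2 t3 : ℕ} (hs : A.s = 1) (hT : A.IsT t1 t2 t3)
    (hM2 : (A.swap23.Mset t1 t3).card ≤ 1)
    (hM1 : (A.swap12.swap23.Mset t2 t3).card ≤ 1) :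
    (2 + A.p + A.q + A.r) ^ 2 ≤ 4 * Fintype.card G := by
  rw [← card_U A A.U A.mem_U]
  refine vol1 A.S A.down A.C1 A.C2 A.C3 A.hC1 A.hC2 A.hC3 A.U A.mem_U t1 t2 t3 hT.h1 hT.h2
    hT.h3 hT.n0 hT.n1 hT.n2 hT.n3 (A.hfull_s1 hT) (A.Mset_le hT) hM2 hM1 ?_ (A.sum_s1 hs)
  intro a b a' b' hc hc' ha hb haa _
  exact A.gap hT (A.cf_of_mem hc) (A.cf_of_mem hc') ha hb haa

theorem Mset_swap_eq (t1 t2 : ℕ) : (A.swap12.Mset t2 t1).card = (A.Mset t1 t2).card :=
  A.Mset_swap t1 t2

theorem main_s1 [Fintype G] (hs : A.s = 1) :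
    (2 + A.p + A.q + A.r) ^ 2 ≤ 4 * Fintype.card G := by
  obtain ⟨t1, t2, t3, hT⟩ := A.exists_T hs
  -- plane sets: P3 = A.Mset t1 t2, P2 = A.swap23.Mset t1 t3, P1 = A.swap12.swap23.Mset t2 t3
  have e1 : (A.swap23.swap12.swap23.Mset t3 t2).card = (A.swap12.swap23.Mset t2 t3).card := by
    have h := A.swap12.swap23.Mset_swap t2 t3
    exact h
  by_cases h3 : 2 ≤ (A.Mset t1 t2).card
  · refine A.main1 hs hT ?_ ?_
    · by_contra hc
      exact A.no_two_card hT h3 (by omega)
    · by_contra hc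
      have h' : 2 ≤ (A.swap12.Mset t2 t1).card := by rw [Mset_swap]; exact h3
      exact A.swap12.no_two_card (IsT.swap12 A hT) h' (by omega)
  · by_cases h2 : 2 ≤ (A.swap23.Mset t1 t3).card
    · have hs' : A.swap23.s = 1 := by rw [s_swap23, hs]
      have := A.swap23.main1 hs' (IsT.swap23 A hT) (by
        have : (A.swap23.swap23.Mset t1 t2).card = (A.Mset t1 t2).card := rfl
        omega) (by
        by_contra hc
        have h' : 2 ≤ (A.swap23.swap12.Mset t3 t1).card := by rw [Mset_swap]; exact h2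
        exact A.swap23.swap12.no_two_card (IsT.swap12 _ (IsT.swap23 A hT)) h' (by omega))
      rw [p_swap23, q_swap23, r_swap23] at this
      rw [show 2 + A.p + A.q + A.r = 2 + A.q + A.p + A.r by ring]
      exact this
    · by_cases h1 : 2 ≤ (A.swap12.swap23.Mset t2 t3).card
      · have hs' : A.swap12.swap23.s = 1 := by rw [s_swap23, s_swap12, hs]
        have := A.swap12.swap23.main1 hs' (IsT.swap23 _ (IsT.swap12 A hT)) (by
          have : (A.swap12.swap23.swap23.Mset t2 t1).card = (A.swap12.Mset t2 t1).card := rfl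
          rw [Mset_swap] at this
          omega) (by
          have : (A.swap12.swap23.swap12.swap23.Mset t3 t1).card =
            (A.swap23.swap12.Mset t3 t1).card := rfl
          rw [Mset_swap] at this
          omega)
        rw [p_swap23, q_swap23, r_swap23, p_swap12, q_swap12, r_swap12] at this
        rw [show 2 + A.p + A.q + A.r = 2 + A.r + A.p + A.q by ring]
        exact this
      · exact A.main1 hs hT (by omega) (by omega)

/-- the main combinatorial theorem -/
theorem main_comb [Fintype G] (h4 : 4 ≤ Fintype.card G) :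
    (1 + A.p + A.q + A.r + A.s) ^ 2 ≤ 4 * Fintype.card G := by
  have h := A.s_le_one
  rcases Nat.eq_zero_or_pos A.s with hs | hs
  · rw [hs]
    exact A.main_s0 h4 hs
  · have hs1 : A.s = 1 := by omega
    have := A.main_s1 hs1
    rw [hs1]
    rw [show 1 + A.p + A.q + A.r + 1 = 2 + A.p + A.q + A.r by ring]
    exact this

end St

end Pool.Agent.Helper13.NS
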