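import Pool.Agent.Helper13.NS.Hits

set_option autoImplicit false

namespace Pool.Agent.Helper13.NS

open Finset Classical

namespace St

variable {G : Type} [AddCommGroup G] (A : St G)

/-- number of corners `(x, b)` of the plane `z = 0` -/
noncomputable def pd (x : ℕ) : ℕ :=
  ((cor (fun x y => A.S x y 0) A.C1 A.C2).filter (fun c => c.1 = x)).card
/-- number of corners `(x, c)` of the plane `y = 0` -/
noncomputable def qd (x : ℕ) : ℕ :=
  ((cor (fun x z => A.S x 0 z) A.C1 A.C3).filter (fun c => c.1 = x)).card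
/-- new slice corners -/
noncomputable def nw (x : ℕ) : ℕ := ((A.K x).filter (fun c => A.S (x - 1) c.1 c.2)).card
/-- old slice corners -/
noncomputable def od (x : ℕ) : ℕ := ((A.K x).filter (fun c => ¬ A.S (x - 1) c.1 c.2)).card

theorem K_card (x : ℕ) : (A.K x).card = A.nw x + A.od x := by
  rw [nw, od, Finset.card_filter_add_card_filter_not]

theorem p_eq : A.p = ∑ x ∈ range A.C1, A.pd x := by
  rw [p]
  apply Finset.card_eq_sum_card_fiberwise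
  intro c hc
  have := (mem_cor.1 (Finset.mem_coe.1 hc)).1.1
  simpa using this

theorem q_eq : A.q = ∑ x ∈ range A.C1, A.qd x := by
  rw [q]
  apply Finset.card_eq_sum_card_fiberwise
  intro c hc
  have := (mem_cor.1 (Finset.mem_coe.1 hc)).1.1
  simpa using this

theorem pd_zero : A.pd 0 = 0 := by
  rw [pd, Finset.card_eq_zero, Finset.filter_eq_empty_iff]
  intro c hc h
  have := (mem_cor.1 hc).2.1
  omega

theorem qd_zero : A.qd 0 = 0 := by
  rw [qd, Finset.card_eq_zero, Finset.filter_eq_empty_iff]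
  intro c hc h
  have := (mem_cor.1 hc).2.1
  omega

theorem s_eq : A.s = ∑ x ∈ range A.C1, (if x = 0 then 0 else A.nw x) := by
  have h1 : A.s = ∑ x ∈ range A.C1,
      ((full A.S A.C1 A.C2 A.C3).filter (fun u => u.1 = x)).card := by
    rw [s]
    apply Finset.card_eq_sum_card_fiberwise
    intro c hc
    have := (mem_full.1 (Finset.mem_coe.1 hc)).1.1
    simpa using this
  rw [h1]
  apply Finset.sum_congr rfl
  intro x hx
  split_ifs with h0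
  · rw [Finset.card_eq_zero, Finset.filter_eq_empty_iff]
    intro c hc h
    have := (mem_full.1 hc).2.1
    omega
  · rw [nw]
    apply Finset.card_bij (fun u _ => u.2)
    · intro u hu
      rw [Finset.mem_filter, mem_full] at hu
      obtain ⟨⟨_, h3, h4, h5, h6, h7, h8, h9⟩, rfl⟩ := hu
      rw [Finset.mem_filter]
      exact ⟨A.mem_K.2 ⟨h4, h5, h6, h8, h9⟩, h7⟩
    · rintro ⟨a, b⟩ hu ⟨c, d⟩ hv h
      rw [Finset.mem_filter] at hu hv
      simp only [Prod.mk.injEq]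
      exact ⟨by have := hu.2; have := hv.2; simp_all, h⟩
    · rintro ⟨y, z⟩ hc
      rw [Finset.mem_filter] at hc
      obtain ⟨h3, h4⟩ := hc
      have h5 := A.mem_K.1 h3
      refine ⟨(x, y, z), ?_, rfl⟩
      rw [Finset.mem_filter, mem_full]
      refine ⟨⟨⟨by simpa using hx, A.ltC2 h5.2.2.2.2, A.ltC3 h5.2.2.2.1⟩, ?_, h5.1, h5.2.1,
        h5.2.2.1, h4, h5.2.2.2.1, h5.2.2.2.2⟩, rfl⟩
      omega

theorem pd_le_one (x : ℕ) : A.pd x ≤ 1 := by
  rw [pd, Finset.card_le_one]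
  rintro ⟨a, b⟩ hc ⟨a', b'⟩ hc'
  rw [Finset.mem_filter, mem_cor] at hc hc'
  obtain ⟨⟨_, _, h2, h3, _, h5⟩, h6⟩ := hc
  obtain ⟨⟨_, _, h2', h3', _, h5'⟩, h6'⟩ := hc'
  simp only at *
  subst h6 h6'
  rcases lt_trichotomy b b' with h | h | h
  · exact absurd (A.down h5' le_rfl (by omega) le_rfl) h3
  · rw [h]
  · exact absurd (A.down h5 le_rfl (by omega) le_rfl) h3'

theorem pd_pos {x : ℕ} (h : A.pd x ≠ 0) :
    ∃ b, 1 ≤ x ∧ 1 ≤ b ∧ ¬ A.S x b 0 ∧ A.S (x - 1) b 0 ∧ A.S x (b - 1) 0 := by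
  rw [pd, Finset.card_ne_zero] at h
  obtain ⟨⟨a, b⟩, hc⟩ := h
  rw [Finset.mem_filter, mem_cor] at hc
  obtain ⟨⟨_, h1, h2, h3, h4, h5⟩, h6⟩ := hc
  simp only at *
  subst h6
  exact ⟨b, h1, h2, h3, h4, h5⟩

theorem qd_eq_swap (x : ℕ) : A.qd x = A.swap23.pd x := rfl

theorem p_rep {x b : ℕ} (hx : 1 ≤ x) (hb : 1 ≤ b) (h : ¬ A.S x b 0) (h1 : A.S (x - 1) b 0)
    (h2 : A.S x (b - 1) 0) : ∃ k, k < A.C3 ∧ x • A.e1 + b • A.e2 = k • A.e3 := by
  obtain ⟨a', b', c', hs, e⟩ := A.surj (x • A.e1 + b • A.e2)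
  have e' : x • A.e1 + b • A.e2 + 0 • A.e3 = a' • A.e1 + b' • A.e2 + c' • A.e3 := by
    rw [← e]; module
  have ha := A.rep_x h hx h1 hs e'
  have hb' := A.rep_y h hb h2 hs e'
  subst ha hb'
  exact ⟨c', (A.hC3 _).1 hs, by rw [e]; module⟩

theorem full_rep {x y z : ℕ} (hx : 1 ≤ x) (h : (y, z) ∈ A.K x) (h1 : A.S (x - 1) y z) :
    x • A.e1 + y • A.e2 + z • A.e3 = 0 := by
  rw [mem_K] at h
  obtain ⟨hy, hz, h2, h3, h4⟩ := h
  obtain ⟨a', b', c', hs, e⟩ := A.surj (x • A.e1 + y • A.e2 + z • A.e3)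
  have ha := A.rep_x h2 hx h1 hs e
  have hb := A.rep_y h2 hy h3 hs e
  have hc := A.rep_z h2 hz h4 hs e
  subst ha hb hc
  rw [e]; module

theorem nw_le_one (x : ℕ) (hx : 1 ≤ x) : A.nw x ≤ 1 := by
  rw [nw, Finset.card_le_one]
  rintro ⟨y, z⟩ hc ⟨y', z'⟩ hc'
  rw [Finset.mem_filter] at hc hc'
  have h1 := A.full_rep hx hc.1 hc.2
  have h2 := A.full_rep hx hc'.1 hc'.2
  have := A.aci_inj hc.1 hc'.1 (h1.trans h2.symm)
  simp [this.2.1, this.2.2]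

theorem s_le_one : A.s ≤ 1 := by
  rw [s, Finset.card_le_one]
  rintro ⟨x, y, z⟩ hc ⟨x', y', z'⟩ hc'
  rw [mem_full] at hc hc'
  obtain ⟨_, h1, h2, h3, h4, h5, h6, h7⟩ := hc
  obtain ⟨_, h1', h2', h3', h4', h5', h6', h7'⟩ := hc'
  have k1 : (y, z) ∈ A.K x := A.mem_K.2 ⟨h2, h3, h4, h6, h7⟩
  have k2 : (y', z') ∈ A.K x' := A.mem_K.2 ⟨h2', h3', h4', h6', h7'⟩
  have e1 := A.full_rep h1 k1 h5
  have e2 := A.full_rep h1' k2 h5'
  have := A.aci_inj k1 k2 (e1.trans e2.symm)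
  simp [this.1, this.2.1, this.2.2]

/-- T-hit of type II at the full corner `(x, t2, t3)` -/
def THit (x t3 : ℕ) : Prop :=
  ∃ b k, 1 ≤ b ∧ ¬ A.S x b 0 ∧ A.S (x - 1) b 0 ∧ A.S x (b - 1) (t3 - 1) ∧
    x • A.e1 + b • A.e2 = k • A.e3 ∧ k < A.C3

/-- a slice corner which is old and has `z < t3`, or a type II T-hit -/
theorem old_or_tHit {x t2 t3 : ℕ} (hx : 1 ≤ x) (hT : (t2, t3) ∈ A.K x)
    (hT1 : A.S (x - 1) t2 t3) (hp : A.pd x ≠ 0) :
    (∃ y z, (y, z) ∈ A.K x ∧ ¬ A.S (x - 1) y z ∧ z < t3) ∨ A.THit x t3 := by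
  obtain ⟨b, _, hb, h1, h2, h3⟩ := A.pd_pos hp
  obtain ⟨k, hk, e⟩ := A.p_rep hx hb h1 h2 h3
  have hTk := A.mem_K.1 hT
  by_cases h4 : A.S x (b - 1) (t3 - 1)
  · exact Or.inr ⟨b, k, hb, h1, h2, h4, e, hk⟩
  · left
    have h5 : A.S x 0 (t3 - 1) := A.down hTk.2.2.2.1 le_rfl (by omega) (by omega)
    obtain ⟨y, z, hy, hz, hy1, hz1, n1, n2, n3⟩ :=
      exists_cor (D := fun y z => A.S x y z)
        (fun h h1 h2 => A.down h le_rfl h1 h2) h4 h3 h5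
    refine ⟨y, z, A.mem_K.2 ⟨hy1, hz1, n1, n2, n3⟩, ?_, by have := hTk.2.1; omega⟩
    intro h6
    have k1 : (y, z) ∈ A.K x := A.mem_K.2 ⟨hy1, hz1, n1, n2, n3⟩
    have e1 := A.full_rep hx k1 h6
    have e2 := A.full_rep hx hT hT1
    have := A.aci_inj k1 hT (e1.trans e2.symm)
    have := hTk.2.1
    omega

theorem mem_K_swap23 {x y z : ℕ} : (z, y) ∈ A.swap23.K x ↔ (y, z) ∈ A.K x := by
  rw [mem_K, mem_K]
  show (1 ≤ z ∧ 1 ≤ y ∧ ¬ A.S x y z ∧ A.S x y (z - 1) ∧ A.S x (y - 1) z) ↔ _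
  tauto

theorem hit_T {x t2 t3 : ℕ} (hx : 1 ≤ x) (hT : (t2, t3) ∈ A.K x)
    (hT1 : A.S (x - 1) t2 t3) :
    A.pd x + A.qd x ≤ A.od x + (if A.THit x t3 then 1 else 0) +
      (if A.swap23.THit x t2 then 1 else 0) := by
  have h1 := A.pd_le_one x
  have h2 := A.swap23.pd_le_one x
  rw [← qd_eq_swap] at h2
  have hTk := A.mem_K.1 hT
  have key1 : A.pd x ≠ 0 → (∃ y z, (y, z) ∈ A.K x ∧ ¬ A.S (x - 1) y z ∧ z < t3) ∨
      A.THit x t3 := A.old_or_tHit hx hT hT1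
  have key2 : A.qd x ≠ 0 → (∃ y z, (y, z) ∈ A.K x ∧ ¬ A.S (x - 1) y z ∧ y < t2) ∨
      A.swap23.THit x t2 := by
    intro h
    rcases A.swap23.old_or_tHit (x := x) (t2 := t3) (t3 := t2) hx (A.mem_K_swap23.2 hT) hT1 h
      with ⟨z, y, h3, h4, h5⟩ | h3
    · exact Or.inl ⟨y, z, A.mem_K_swap23.1 h3, h4, h5⟩
    · exact Or.inr h3
  have two : (∃ y z, (y, z) ∈ A.K x ∧ ¬ A.S (x - 1) y z ∧ z < t3) →
      (∃ y z, (y, z) ∈ A.K x ∧ ¬ A.S (x - 1) y z ∧ y < t2) → 2 ≤ A.od x := by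
    rintro ⟨y, z, a1, a2, a3⟩ ⟨y', z', b1, b2, b3⟩
    rw [od]
    have hne : (y, z) ≠ (y', z') := by
      intro h
      simp only [Prod.mk.injEq] at h
      obtain ⟨rfl, rfl⟩ := h
      have h6 := (A.mem_K.1 a1).2.2.1
      exact h6 (A.down hTk.2.2.2.1 le_rfl (by omega) (by omega))
    have hsub : ({(y, z), (y', z')} : Finset (ℕ × ℕ)) ⊆
        (A.K x).filter (fun c => ¬ A.S (x - 1) c.1 c.2) := by
      intro c hc
      rw [Finset.mem_insert, Finset.mem_singleton] at hc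
      rw [Finset.mem_filter]
      rcases hc with rfl | rfl
      · exact ⟨a1, a2⟩
      · exact ⟨b1, b2⟩
    calc 2 = ({(y, z), (y', z')} : Finset (ℕ × ℕ)).card := (Finset.card_pair hne).symm
      _ ≤ _ := Finset.card_le_card hsub
  have one1 : (∃ y z, (y, z) ∈ A.K x ∧ ¬ A.S (x - 1) y z ∧ z < t3) → 1 ≤ A.od x := by
    rintro ⟨y, z, a1, a2, a3⟩
    rw [od, Nat.one_le_iff_ne_zero, Finset.card_ne_zero]
    exact ⟨(y, z), Finset.mem_filter.2 ⟨a1, a2⟩⟩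
  have one2 : (∃ y z, (y, z) ∈ A.K x ∧ ¬ A.S (x - 1) y z ∧ y < t2) → 1 ≤ A.od x := by
    rintro ⟨y, z, a1, a2, a3⟩
    rw [od, Nat.one_le_iff_ne_zero, Finset.card_ne_zero]
    exact ⟨(y, z), Finset.mem_filter.2 ⟨a1, a2⟩⟩
  by_cases c1 : A.pd x = 0 <;> by_cases c2 : A.qd x = 0
  · omega
  · rcases key2 c2 with h | h
    · have := one2 h; split_ifs <;> omega
    · rw [if_pos h]; split_ifs <;> omega
  · rcases key1 c1 with h | h
    · have := one1 h; split_ifs <;> omega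
    · rw [if_pos h]; split_ifs <;> omega
  · rcases key1 c1 with h | h <;> rcases key2 c2 with h' | h'
    · have := two h h'; split_ifs <;> omega
    · have := one1 h; rw [if_pos h']; split_ifs <;> omega
    · have := one2 h'; rw [if_pos h]; split_ifs <;> omega
    · rw [if_pos h, if_pos h']; omega

/-- without new corner: at most one more than expected, and then a `V`-hit -/
theorem hit_V {x : ℕ} (hx : 1 ≤ x) (hn : A.nw x = 0) :
    A.pd x + A.qd x ≤ 1 + A.od x ∨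
    (A.pd x + A.qd x = 2 ∧ ∃ b c k μ, A.VHit x b c k μ) := by
  by_cases h : A.pd x + A.qd x ≤ 1 + A.od x
  · exact Or.inl h
  · right
    have h1 := A.pd_le_one x
    have h2 := A.swap23.pd_le_one x
    rw [← qd_eq_swap] at h2
    have h3 : A.od x = 0 := by omega
    have hK : A.K x = ∅ := by
      rw [← Finset.card_eq_zero, A.K_card, hn, h3]
    refine ⟨by omega, ?_⟩
    obtain ⟨b, _, hb, n1, n2, n3⟩ := A.pd_pos (x := x) (by omega)
    obtain ⟨c, _, hc, m1, m2, m3⟩ := A.swap23.pd_pos (x := x)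
      (by rw [← qd_eq_swap]; omega)
    obtain ⟨k, hk, e⟩ := A.p_rep hx hb n1 n2 n3
    obtain ⟨μ, hμ, e'⟩ := A.swap23.p_rep hx hc m1 m2 m3
    refine ⟨b, c, k, μ, hx, hb, hc, n1, n2, m1, m2, ?_, e, hk, e', hμ⟩
    by_contra h4
    obtain ⟨y, z, hy, hz, hy1, hz1, l1, l2, l3⟩ :=
      exists_cor (D := fun y z => A.S x y z)
        (fun h h1 h2 => A.down h le_rfl h1 h2) h4 n3 m3
    have : (y, z) ∈ A.K x := A.mem_K.2 ⟨hy1, hz1, l1, l2, l3⟩
    rw [hK] at this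
    simp at this

end St

end Pool.Agent.Helper13.NS
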