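import Pool.Agent.Helper13.NS.Comb
import Pool.Agent.Helper13.NS.Defs
import Pool.Agent.Helper75.NSToric
import Pool.Agent.Helper1.NSAttain2

set_option autoImplicit false

namespace Pool.Agent.Helper13.NS

open Finset

/-- every minimal semigroup with four generators has a toric ideal generated by at most
`⌊2 + 2 √m⌋` elements -/
theorem upper (m : ℕ) (hm : 3 < m) (a : Fin 4 → ℕ) (hmono : StrictMono a) (ha0 : a 0 = m)
    (hgcd : Finset.univ.gcd a = 1)
    (hmin : ∀ i : Fin 4, a i ∉ AddSubmonoid.closure (a '' {j : Fin 4 | j ≠ i})) :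
    ∃ s : Finset (MvPolynomial (Fin 4) ℚ),
      Ideal.span (s : Set (MvPolynomial (Fin 4) ℚ)) =
        RingHom.ker (MvPolynomial.aeval
          (fun i : Fin 4 => (Polynomial.X : Polynomial ℚ) ^ (a i))) ∧
      s.card ≤ ⌊(2 : ℝ) + 2 * Real.sqrt (m : ℝ)⌋₊ := by
  have hpos : ∀ i, 0 < a i := fun i => by
    have : a 0 ≤ a i := hmono.monotone (Fin.zero_le i)
    omega
  obtain ⟨_, s, hs, hspan⟩ := exists_span a hpos
  refine ⟨s, hspan, ?_⟩
  obtain ⟨A, hA⟩ := exists_St a hmono (hpos 0) hgcd hmin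
  haveI : NeZero (a 0) := ⟨by omega⟩
  have hcard : Fintype.card (ZMod (a 0)) = m := by rw [ZMod.card, ha0]
  have h1 := A.main_comb (by rw [hcard]; omega)
  rw [hcard] at h1
  have h2 := gens_ncard A
  have h3 : {u : ℕ × ℕ × ℕ | ¬ A.S u.1 u.2.1 u.2.2 ∧
      ∀ v : ℕ × ℕ × ℕ, v ≤ u → v ≠ u → A.S v.1 v.2.1 v.2.2} = Gens a := by
    ext u
    constructor
    · rintro ⟨h4, h5⟩
      refine ⟨fun h => h4 ((hA _ _ _).2 h), fun v hv hne => (hA _ _ _).1 (h5 v hv hne)⟩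
    · rintro ⟨h4, h5⟩
      refine ⟨fun h => h4 ((hA _ _ _).1 h), fun v hv hne => (hA _ _ _).2 (h5 v hv hne)⟩
  rw [h3] at h2
  have h4 : s.card ≤ 2 + (1 + A.p + A.q + A.r + A.s) := by omega
  set t := 1 + A.p + A.q + A.r + A.s with ht
  apply Nat.le_floor
  have h5 : (t : ℝ) ≤ 2 * Real.sqrt m := by
    have h6 : ((t : ℝ)) ^ 2 ≤ 4 * (m : ℝ) := by exact_mod_cast h1
    have h7 : (t : ℝ) ≤ Real.sqrt (4 * m) := Real.le_sqrt_of_sq_le h6
    have h8 : Real.sqrt (4 * (m : ℝ)) = 2 * Real.sqrt m := by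
      rw [Real.sqrt_mul (by norm_num : (0 : ℝ) ≤ 4)]
      congr 1
      rw [show (4 : ℝ) = 2 ^ 2 by norm_num]
      exact Real.sqrt_sq (by norm_num)
    rw [h8] at h7
    exact h7
  have h9 : (s.card : ℝ) ≤ 2 + (t : ℝ) := by exact_mod_cast h4
  linarith

end Pool.Agent.Helper13.NS
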