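import Pool.Agent.Helper13.NS.Axis

set_option autoImplicit false

namespace Pool.Agent.Helper13.NS

open Finset Classical

namespace St

variable {G : Type} [AddCommGroup G] (A : St G)

/-- type II hit at `x`: the corner `(x, b, 0) ≡ k e3`, a rectangle `b × c` in the slice at `x`
and `k + c ≥ C3` -/
def HII (x b c k : ℕ) : Prop :=
  1 ≤ x ∧ 1 ≤ b ∧ 1 ≤ c ∧ ¬ A.S x b 0 ∧ A.S (x - 1) b 0 ∧ A.S x (b - 1) (c - 1) ∧
  x • A.e1 + b • A.e2 = k • A.e3 ∧ k < A.C3 ∧ A.C3 ≤ k + c

theorem hii_unique_lt {x b c k x' b' c' k' : ℕ} (h : A.HII x b c k) (h' : A.HII x' b' c' k')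
    (hx : x < x') : False := by
  obtain ⟨hx1, hb, hc, n1, n2, n3, e, hk, hkc⟩ := h
  obtain ⟨hx1', hb', hc', n1', n2', n3', e', hk', hkc'⟩ := h'
  obtain ⟨dx, rfl⟩ := Nat.exists_eq_add_of_lt hx
  have hbb : b' < b := by
    by_contra hcon
    exact n1 (A.down n2' (by omega) (by omega) le_rfl)
  obtain ⟨db, rfl⟩ := Nat.exists_eq_add_of_lt hbb
  rcases le_or_gt k k' with hkk | hkk
  · obtain ⟨dk, rfl⟩ := Nat.exists_eq_add_of_le hkk
    have h4 : A.S (dx + 1) 0 0 := A.down n3' (by omega) (by omega) (by omega)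
    have h5 : A.S 0 (db + 1) dk := A.down n3 (by omega) (by omega) (by omega)
    have := A.inj h4 h5 (by linear_combination (norm := module) e' - e)
    omega
  · obtain ⟨dk, rfl⟩ := Nat.exists_eq_add_of_lt hkk
    have h4 : A.S (dx + 1) 0 (dk + 1) := A.down n3' (by omega) (by omega) (by omega)
    have h5 : A.S 0 (db + 1) 0 := A.down n3 (by omega) (by omega) (by omega)
    have := A.inj h4 h5 (by linear_combination (norm := module) e' - e)
    omega

theorem hii_unique {x b c k x' b' c' k' : ℕ} (h : A.HII x b c k) (h' : A.HII x' b' c' k') :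
    x = x' := by
  rcases lt_trichotomy x x' with hx | hx | hx
  · exact (A.hii_unique_lt h h' hx).elim
  · exact hx
  · exact (A.hii_unique_lt h' h hx).elim

/-- payment for a type II hit -/
theorem hii_pay {x b c k : ℕ} (h : A.HII x b c k) (hx3 : 1 ≤ A.x3) (hy3 : 1 ≤ A.y3) :
    k + c = A.C3 := by
  obtain ⟨hx1, hb, hc, n1, n2, n3, e, hk, hkc⟩ := h
  by_contra hne
  obtain ⟨c', hc'⟩ : ∃ c', A.C3 = k + c' := ⟨A.C3 - k, by omega⟩
  have f3 := A.f3
  rw [hc'] at f3
  have s3 := A.s3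
  rcases le_or_gt A.x3 x with h1 | h1 <;> rcases le_or_gt A.y3 b with h2 | h2
  · obtain ⟨u, hu⟩ := Nat.exists_eq_add_of_le h1
    obtain ⟨v, hv⟩ := Nat.exists_eq_add_of_le h2
    have h4 : A.S u v c' := A.down n3 (by omega) (by omega) (by omega)
    rw [hu, hv] at e
    have := A.inj h4 A.zero_mem (by linear_combination (norm := module) e + f3)
    omega
  · obtain ⟨u, hu⟩ := Nat.exists_eq_add_of_le h1
    obtain ⟨v, hv⟩ := Nat.exists_eq_add_of_lt h2
    have h4 : A.S u 0 c' := A.down n3 (by omega) (by omega) (by omega)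
    have h5 : A.S 0 (v + 1) 0 := A.down s3 (by omega) (by omega) (by omega)
    rw [hu] at e
    rw [hv] at f3
    have := A.inj h4 h5 (by linear_combination (norm := module) e + f3)
    omega
  · obtain ⟨u, hu⟩ := Nat.exists_eq_add_of_lt h1
    obtain ⟨v, hv⟩ := Nat.exists_eq_add_of_le h2
    have h4 : A.S 0 v c' := A.down n3 (by omega) (by omega) (by omega)
    have h5 : A.S (u + 1) 0 0 := A.down s3 (by omega) (by omega) (by omega)
    rw [hv] at e
    rw [hu] at f3
    have := A.inj h4 h5 (by linear_combination (norm := module) e + f3)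
    omega
  · obtain ⟨u, hu⟩ := Nat.exists_eq_add_of_lt h1
    obtain ⟨v, hv⟩ := Nat.exists_eq_add_of_lt h2
    have h4 : A.S 0 0 c' := A.down n3 (by omega) (by omega) (by omega)
    have h5 : A.S (u + 1) (v + 1) 0 := A.down s3 (by omega) (by omega) (by omega)
    rw [hu, hv] at f3
    have := A.inj h4 h5 (by linear_combination (norm := module) e + f3)
    omega

/-- rectangle: both planar coordinates drop at `x` and the slice has no corner -/
structure VHit (x b c k μ : ℕ) : Prop where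
  hx : 1 ≤ x
  hb : 1 ≤ b
  hc : 1 ≤ c
  nb : ¬ A.S x b 0
  nb' : A.S (x - 1) b 0
  nc : ¬ A.S x 0 c
  nc' : A.S (x - 1) 0 c
  rect : A.S x (b - 1) (c - 1)
  eb : x • A.e1 + b • A.e2 = k • A.e3
  hk : k < A.C3
  ec : x • A.e1 + c • A.e3 = μ • A.e2
  hμ : μ < A.C2

theorem VHit.swap {x b c k μ : ℕ} (h : A.VHit x b c k μ) : A.swap23.VHit x c b μ k :=
  ⟨h.hx, h.hc, h.hb, h.nc, h.nc', h.nb, h.nb', h.rect, h.ec, h.hμ, h.eb, h.hk⟩

theorem VHit.types {x b c k μ : ℕ} (h : A.VHit x b c k μ) :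
    A.HII x b c k ∨ A.swap23.HII x c b μ := by
  by_cases h1 : A.C3 ≤ k + c
  · exact Or.inl ⟨h.hx, h.hb, h.hc, h.nb, h.nb', h.rect, h.eb, h.hk, h1⟩
  · by_cases h2 : A.C2 ≤ μ + b
    · exact Or.inr ⟨h.hx, h.hc, h.hb, h.nc, h.nc', h.rect, h.ec, h.hμ, h2⟩
    · have h3 : A.S 0 0 (k + c) := (A.hC3 _).2 (by omega)
      have h4 : A.S 0 (μ + b) 0 := (A.hC2 _).2 (by omega)
      have := A.inj h3 h4 (by linear_combination (norm := module) h.ec - h.eb)
      have := h.hc
      omega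

/-- a `V`-hit of type II which does not pay via `F3` is of type I -/
theorem VHit.both {x b c k μ : ℕ} (h : A.VHit x b c k μ) (h2 : A.HII x b c k)
    (hx3 : 1 ≤ A.x3) (hy3 : 1 ≤ A.y3) :
    A.swap23.HII x c b μ ∧ A.C2 < μ + b := by
  have h3 := A.hii_pay h2 hx3 hy3
  have f3 := A.f3
  rw [← h3] at f3
  have key : A.C2 < μ + b := by
    rcases le_or_gt (b + μ) A.y3 with h4 | h4
    · obtain ⟨u, hu⟩ := Nat.exists_eq_add_of_le h4
      have h5 : A.S A.x3 u 0 := A.down A.s3 le_rfl (by omega) le_rfl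
      rw [hu] at f3
      have := A.inj h5 A.zero_mem
        (by linear_combination (norm := module) h.ec - h.eb - f3)
      omega
    · obtain ⟨u, hu⟩ := Nat.exists_eq_add_of_lt h4
      by_contra hcon
      have h5 : A.S 0 (u + 1) 0 := (A.hC2 _).2 (by omega)
      have h6 : A.S A.x3 0 0 := A.down A.s3 le_rfl (by omega) le_rfl
      have hb' : b • A.e2 + μ • A.e2 = (A.y3 + u + 1) • A.e2 := by
        rw [← hu]; module
      have := A.inj h6 h5
        (by linear_combination (norm := module) h.ec - h.eb - f3 + hb')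
      omega
  exact ⟨⟨h.hx, h.hc, h.hb, h.nc, h.nc', h.rect, h.ec, h.hμ, key.le⟩, key⟩

/-- every `V`-hit is a paid type II hit or a paid type I hit -/
theorem VHit.paid {x b c k μ : ℕ} (h : A.VHit x b c k μ) :
    (A.HII x b c k ∧ (A.x3 = 0 ∨ A.y3 = 0)) ∨
    (A.swap23.HII x c b μ ∧ (A.x2 = 0 ∨ A.z2 = 0)) := by
  have main : ∀ (B : St G) {x b c k μ : ℕ}, B.VHit x b c k μ → B.HII x b c k →
      (B.HII x b c k ∧ (B.x3 = 0 ∨ B.y3 = 0)) ∨
      (B.swap23.HII x c b μ ∧ (B.x2 = 0 ∨ B.z2 = 0)) := by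
    intro B x b c k μ h h1
    by_cases hp : B.x3 = 0 ∨ B.y3 = 0
    · exact Or.inl ⟨h1, hp⟩
    · push Not at hp
      obtain ⟨h2, h3⟩ := VHit.both B h h1 (by omega) (by omega)
      right
      refine ⟨h2, ?_⟩
      by_contra hq
      push Not at hq
      have := B.swap23.hii_pay h2 (Nat.one_le_iff_ne_zero.2 hq.1)
        (Nat.one_le_iff_ne_zero.2 hq.2)
      have h4 : B.swap23.C3 = B.C2 := rfl
      omega
  rcases h.types with h1 | h1
  · exact main A h h1
  · rcases main A.swap23 h.swap h1 with h2 | h2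
    · exact Or.inr h2
    · exact Or.inl h2

/-- the type II hit at the level of the full corner -/
theorem tHit {t1 t2 t3 b k : ℕ} (hT : t1 • A.e1 + t2 • A.e2 + t3 • A.e3 = 0)
    (h1 : 1 ≤ t1) (h2 : 1 ≤ t2) (h3 : 1 ≤ t3)
    (hTz : A.S t1 t2 (t3 - 1))
    (hb : 1 ≤ b) (nb : ¬ A.S t1 b 0) (nb' : A.S (t1 - 1) b 0)
    (rect : A.S t1 (b - 1) (t3 - 1)) (eb : t1 • A.e1 + b • A.e2 = k • A.e3) (hk : k < A.C3) :
    A.HII t1 b t3 k ∧ (A.x3 = 0 ∨ A.y3 = 0) := by
  have hbt : t2 < b := by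
    by_contra hcon
    exact nb (A.down hTz le_rfl (by omega) (by omega))
  obtain ⟨d, hd⟩ := Nat.exists_eq_add_of_lt hbt
  rw [hd] at eb
  have h5 : A.S 0 (d + 1) 0 := A.down rect (by omega) (by omega) (by omega)
  have hge : A.C3 ≤ k + t3 := by
    by_contra hcon
    have h4 : A.S 0 0 (k + t3) := (A.hC3 _).2 (by omega)
    have := A.inj h4 h5 (by linear_combination (norm := module) hT - eb)
    omega
  have hH : A.HII t1 b t3 k := by
    refine ⟨h1, hb, h3, nb, nb', rect, ?_, hk, hge⟩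
    rw [hd]; exact eb
  refine ⟨hH, ?_⟩
  by_contra hcon
  push Not at hcon
  have h6 := A.hii_pay hH (by omega) (by omega)
  have f3 := A.f3
  rw [← h6] at f3
  have := A.inj A.s3 h5 (by linear_combination (norm := module) hT - eb - f3)
  omega

end St

end Pool.Agent.Helper13.NS
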