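import Pool.Agent.Helper13.NS.Sum3

set_option autoImplicit false

namespace Pool.Agent.Helper13.NS

open Finset Classical

namespace St

variable {G : Type} [AddCommGroup G] (A : St G)

/-- data of the full corner -/
structure IsT (t1 t2 t3 : ℕ) : Prop where
  h1 : 1 ≤ t1
  h2 : 1 ≤ t2
  h3 : 1 ≤ t3
  n0 : ¬ A.S t1 t2 t3
  n1 : A.S (t1 - 1) t2 t3
  n2 : A.S t1 (t2 - 1) t3
  n3 : A.S t1 t2 (t3 - 1)
  e : t1 • A.e1 + t2 • A.e2 + t3 • A.e3 = 0

theorem IsT.swap23 {t1 t2 t3 : ℕ} (h : A.IsT t1 t2 t3) : A.swap23.IsT t1 t3 t2 :=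
  ⟨h.h1, h.h3, h.h2, h.n0, h.n1, h.n3, h.n2, by
    show t1 • A.e1 + t3 • A.e3 + t2 • A.e2 = 0
    linear_combination (norm := module) h.e⟩

theorem IsT.swap12 {t1 t2 t3 : ℕ} (h : A.IsT t1 t2 t3) : A.swap12.IsT t2 t1 t3 :=
  ⟨h.h2, h.h1, h.h3, h.n0, h.n2, h.n1, h.n3, by
    show t2 • A.e2 + t1 • A.e1 + t3 • A.e3 = 0
    linear_combination (norm := module) h.e⟩

/-- a corner of the plane `z = 0` -/
structure CF (a b : ℕ) : Prop where
  ha : 1 ≤ a
  hb : 1 ≤ b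
  n0 : ¬ A.S a b 0
  n1 : A.S (a - 1) b 0
  n2 : A.S a (b - 1) 0

theorem cf_of_mem {a b : ℕ} (h : (a, b) ∈ cor (fun x y => A.S x y 0) A.C1 A.C2) :
    A.CF a b := by
  rw [mem_cor] at h
  exact ⟨h.2.1, h.2.2.1, h.2.2.2.1, h.2.2.2.2.1, h.2.2.2.2.2⟩

theorem CF.lt {a b a' b' : ℕ} (h : A.CF a b) (h' : A.CF a' b') (haa : a < a') : b' < b := by
  by_contra hcon
  have := h'.ha
  exact h.n0 (A.down h'.n1 (by omega) (by omega) le_rfl)

theorem CF.eq {a b b' : ℕ} (h : A.CF a b) (h' : A.CF a b') : b = b' := by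
  rcases lt_trichotomy b b' with h1 | h1 | h1
  · exact absurd (A.down h'.n2 le_rfl (by omega) le_rfl) h.n0
  · exact h1
  · exact absurd (A.down h.n2 le_rfl (by omega) le_rfl) h'.n0

theorem CF.rep {a b : ℕ} (h : A.CF a b) : ∃ k, k < A.C3 ∧ a • A.e1 + b • A.e2 = k • A.e3 :=
  A.p_rep h.ha h.hb h.n0 h.n1 h.n2

/-- levels of the corners above the full corner -/
theorem level {t1 t2 t3 : ℕ} (hT : A.IsT t1 t2 t3) {a b k : ℕ} (h : A.CF a b)
    (ha : t1 ≤ a) (hb : t2 ≤ b) (_hk : k < A.C3) (e : a • A.e1 + b • A.e2 = k • A.e3) :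
    A.C3 ≤ k + t3 := by
  by_contra hcon
  obtain ⟨u, rfl⟩ := Nat.exists_eq_add_of_le ha
  obtain ⟨v, rfl⟩ := Nat.exists_eq_add_of_le hb
  have g1 := hT.h1
  have g3 := hT.h3
  have h4 : A.S u v 0 := A.down h.n1 (by omega) (by omega) le_rfl
  have h5 : A.S 0 0 (k + t3) := (A.hC3 _).2 (by omega)
  have := A.inj h4 h5 (by linear_combination (norm := module) e - hT.e)
  omega

/-- difference of two corners above the full corner -/
theorem pair3 {t1 t2 t3 : ℕ} (hT : A.IsT t1 t2 t3) {a b a' b' : ℕ} (h : A.CF a b)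
    (h' : A.CF a' b') (ha : t1 ≤ a) (hb : t2 ≤ b') (haa : a < a') :
    ∃ dA dB ζ, a' = a + dA ∧ b = b' + dB ∧ 1 ≤ dA ∧ 1 ≤ dB ∧ 1 ≤ ζ ∧ ζ < t3 ∧
      ((dA • A.e1 + ζ • A.e3 = dB • A.e2 ∧ ¬ A.S dA 0 ζ) ∨
       (dA • A.e1 = dB • A.e2 + ζ • A.e3 ∧ ¬ A.S 0 dB ζ)) := by
  have hbb := CF.lt A h h' haa
  obtain ⟨k, hk, e⟩ := CF.rep A h
  obtain ⟨k', hk', e'⟩ := CF.rep A h'
  have l1 := A.level hT h ha (by omega) hk e
  have l2 := A.level hT h' (by omega) hb hk' e'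
  obtain ⟨dA, rfl⟩ := Nat.exists_eq_add_of_lt haa
  obtain ⟨dB, rfl⟩ := Nat.exists_eq_add_of_lt hbb
  have s1 : A.S (dA + 1) 0 0 := A.down h'.n2 (by omega) (by omega) le_rfl
  have s2 : A.S 0 (dB + 1) 0 := A.down h.n1 (by omega) (by omega) le_rfl
  rcases lt_trichotomy k k' with hkk | hkk | hkk
  · obtain ⟨ζ, rfl⟩ := Nat.exists_eq_add_of_lt hkk
    have e3 : (dA + 1) • A.e1 = (dB + 1) • A.e2 + (ζ + 1) • A.e3 := by
      linear_combination (norm := module) e' - e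
    refine ⟨dA + 1, dB + 1, ζ + 1, by omega, by omega, by omega, by omega, by omega, by omega,
      Or.inr ⟨e3, ?_⟩⟩
    intro hS
    have := A.inj s1 hS (by linear_combination (norm := module) e3)
    omega
  · subst hkk
    have := A.inj s1 s2 (by linear_combination (norm := module) e' - e)
    omega
  · obtain ⟨ζ, rfl⟩ := Nat.exists_eq_add_of_lt hkk
    have e3 : (dA + 1) • A.e1 + (ζ + 1) • A.e3 = (dB + 1) • A.e2 := by
      linear_combination (norm := module) e' - e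
    refine ⟨dA + 1, dB + 1, ζ + 1, by omega, by omega, by omega, by omega, by omega, by omega,
      Or.inl ⟨e3, ?_⟩⟩
    intro hS
    have := A.inj hS s2 (by linear_combination (norm := module) e3)
    omega

theorem gap {t1 t2 t3 : ℕ} (hT : A.IsT t1 t2 t3) {a b a' b' : ℕ} (h : A.CF a b)
    (h' : A.CF a' b') (ha : t1 ≤ a) (hb : t2 ≤ b') (haa : a < a') :
    a + t1 < a' ∨ b' + t2 < b := by
  obtain ⟨dA, dB, ζ, rfl, rfl, _, _, hζ, hζ3, h1 | h1⟩ := A.pair3 hT h h' ha hb haa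
  · left
    by_contra hcon
    have := hT.h2
    exact h1.2 (A.down hT.n2 (by omega) (by omega) (by omega))
  · right
    by_contra hcon
    have := hT.h1
    exact h1.2 (A.down hT.n1 (by omega) (by omega) (by omega))

/-- Case (3+, 2-): contradiction -/
theorem plus_minus {t1 t2 t3 : ℕ} (hT : A.IsT t1 t2 t3) {a a' b' : ℕ}
    (h' : A.CF a' b') (ha : t1 ≤ a) (hb : t2 ≤ b')
    {c d c' d' : ℕ} (k' : A.swap23.CF c' d') (hc : t1 ≤ c) (hd : t3 ≤ d')
    {dA ζ dC dD η : ℕ} (ea : a' = a + dA) (ec : c' = c + dC) (ed : d = d' + dD)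
    (hη : 1 ≤ η) (hη' : η < t2) (hζ' : ζ < t3)
    (hA : ¬ A.S dA 0 ζ)
    (eC : dC • A.e1 = dD • A.e3 + η • A.e2) (hC : ¬ A.S 0 η dD)
    (hdD : A.S 0 0 dD) : False := by
  have g1 := hT.h1
  have g3 := hT.h3
  -- dA > c'
  have hkn : A.S c' 0 (d' - 1) := k'.n2
  have s1 : c' < dA := by
    by_contra hcon
    exact hA (A.down hkn (by omega) le_rfl (by omega))
  have s2 : t3 < dD := by
    by_contra hcon
    exact hC (A.down hT.n1 (by omega) (by omega) (by omega))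
  obtain ⟨u, hu⟩ := Nat.exists_eq_add_of_lt s2
  obtain ⟨v, hv⟩ := Nat.exists_eq_add_of_lt hη'
  have s3 : A.S (t1 + dC) (v + 1) 0 := A.down h'.n2 (by omega) (by omega) le_rfl
  have s4 : A.S 0 0 (u + 1) := A.down hdD le_rfl le_rfl (by omega)
  have hTe := hT.e
  rw [hv] at hTe
  rw [hu] at eC
  have := A.inj s3 s4 (by linear_combination (norm := module) hTe + eC)
  omega

/-- two corners above the full corner in two different planes are impossible -/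
theorem no_two {t1 t2 t3 : ℕ} (hT : A.IsT t1 t2 t3) {a b a' b' : ℕ} (h : A.CF a b)
    (h' : A.CF a' b') (ha : t1 ≤ a) (hb : t2 ≤ b') (haa : a < a')
    {c d c' d' : ℕ} (k : A.swap23.CF c d) (k' : A.swap23.CF c' d')
    (hc : t1 ≤ c) (hd : t3 ≤ d') (hcc : c < c') : False := by
  have g1 := hT.h1
  have g2 := hT.h2
  have g3 := hT.h3
  obtain ⟨dA, dB, ζ, ea, eb, hdA, hdB, hζ, hζ3, hP⟩ := A.pair3 hT h h' ha hb haa
  obtain ⟨dC, dD, η, ec, ed, hdC, hdD, hη, hη3, hQ⟩ :=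
    A.swap23.pair3 (IsT.swap23 A hT) k k' hc hd hcc
  have hQ' : (dC • A.e1 + η • A.e2 = dD • A.e3 ∧ ¬ A.S dC η 0) ∨
      (dC • A.e1 = dD • A.e3 + η • A.e2 ∧ ¬ A.S 0 η dD) := hQ
  have kn2 : A.S c' 0 (d' - 1) := k'.n2
  have kn1 : A.S (c - 1) 0 d := k.n1
  have sD : A.S 0 0 dD := A.down kn1 (by omega) le_rfl (by omega)
  have sB : A.S 0 dB 0 := A.down h.n1 (by omega) (by omega) le_rfl
  rcases hP with ⟨eP, hP⟩ | ⟨eP, hP⟩ <;> rcases hQ' with ⟨eQ, hQ⟩ | ⟨eQ, hQ⟩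
  · have s1 : c' < dA := by
      by_contra hcon
      exact hP (A.down kn2 (by omega) le_rfl (by omega))
    have s2 : a' < dC := by
      by_contra hcon
      exact hQ (A.down h'.n2 (by omega) (by omega) le_rfl)
    omega
  · exact A.plus_minus hT h' ha hb k' hc hd ea ec ed hη hη3 hζ3 hP eQ hQ sD
  · exact A.swap23.plus_minus (IsT.swap23 A hT) k' hc hd h' ha hb ec ea eb hζ hζ3 hη3 hQ eP hP sB
  · have s1 : t2 < dB := by
      by_contra hcon
      exact hP (A.down hT.n1 (by omega) (by omega) (by omega))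
    have s2 : t3 < dD := by
      by_contra hcon
      exact hQ (A.down hT.n1 (by omega) (by omega) (by omega))
    obtain ⟨u, hu⟩ := Nat.exists_eq_add_of_lt s1
    obtain ⟨v, hv⟩ := Nat.exists_eq_add_of_lt s2
    obtain ⟨ζ', hζ'⟩ := Nat.exists_eq_add_of_lt hζ3
    obtain ⟨η', hη'⟩ := Nat.exists_eq_add_of_lt hη3
    have hTe := hT.e
    have s3 : c' < t1 + dA := by
      by_contra hcon
      have h4 : A.S (t1 + dA) 0 (ζ' + 1) := A.down kn2 (by omega) le_rfl (by omega)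
      have h5 : A.S 0 (u + 1) 0 := A.down sB le_rfl (by omega) le_rfl
      rw [hζ'] at hTe
      rw [hu] at eP
      have := A.inj h4 h5 (by linear_combination (norm := module) hTe + eP)
      omega
    have s4 : a' < t1 + dC := by
      by_contra hcon
      have h4 : A.S (t1 + dC) (η' + 1) 0 := A.down h'.n2 (by omega) (by omega) le_rfl
      have h5 : A.S 0 0 (v + 1) := A.down sD le_rfl le_rfl (by omega)
      rw [hη'] at hTe
      rw [hv] at eQ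
      have := A.inj h4 h5 (by linear_combination (norm := module) hTe + eQ)
      omega
    omega

/-- a minimal non-member below a non-member -/
theorem exists_min {x y z : ℕ} (h : ¬ A.S x y z) : ∃ u v w, u ≤ x ∧ v ≤ y ∧ w ≤ z ∧
    ¬ A.S u v w ∧ (1 ≤ u → A.S (u - 1) v w) ∧ (1 ≤ v → A.S u (v - 1) w) ∧
    (1 ≤ w → A.S u v (w - 1)) := by
  induction hn : x + y + z using Nat.strong_induction_on generalizing x y z with
  | _ n ih =>
    by_cases h1 : 1 ≤ x ∧ ¬ A.S (x - 1) y z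
    · obtain ⟨u, v, w, a1, a2, a3, a4⟩ := ih (x - 1 + y + z) (by omega) h1.2 rfl
      exact ⟨u, v, w, by omega, a2, a3, a4⟩
    by_cases h2 : 1 ≤ y ∧ ¬ A.S x (y - 1) z
    · obtain ⟨u, v, w, a1, a2, a3, a4⟩ := ih (x + (y - 1) + z) (by omega) h2.2 rfl
      exact ⟨u, v, w, a1, by omega, a3, a4⟩
    by_cases h3 : 1 ≤ z ∧ ¬ A.S x y (z - 1)
    · obtain ⟨u, v, w, a1, a2, a3, a4⟩ := ih (x + y + (z - 1)) (by omega) h3.2 rfl
      exact ⟨u, v, w, a1, a2, by omega, a4⟩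
    refine ⟨x, y, z, le_rfl, le_rfl, le_rfl, h, ?_, ?_, ?_⟩
    · intro h4; by_contra h5; exact h1 ⟨h4, h5⟩
    · intro h4; by_contra h5; exact h2 ⟨h4, h5⟩
    · intro h4; by_contra h5; exact h3 ⟨h4, h5⟩

theorem mem_full' {x y z : ℕ} : (x, y, z) ∈ full A.S A.C1 A.C2 A.C3 ↔
    1 ≤ x ∧ 1 ≤ y ∧ 1 ≤ z ∧ ¬ A.S x y z ∧
      A.S (x - 1) y z ∧ A.S x (y - 1) z ∧ A.S x y (z - 1) := by
  rw [mem_full]
  constructor
  · exact fun h => h.2
  · intro h
    exact ⟨⟨A.ltC1 h.2.2.2.2.2.1, A.ltC2 h.2.2.2.2.1, A.ltC3 h.2.2.2.2.1⟩, h⟩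

theorem exists_T (hs : A.s = 1) : ∃ t1 t2 t3, A.IsT t1 t2 t3 := by
  obtain ⟨⟨t1, t2, t3⟩, hT⟩ : (full A.S A.C1 A.C2 A.C3).Nonempty := by
    rw [← Finset.card_pos]
    have : A.s = (full A.S A.C1 A.C2 A.C3).card := rfl
    omega
  rw [mem_full'] at hT
  obtain ⟨h1, h2, h3, n0, n1, n2, n3⟩ := hT
  have hK : (t2, t3) ∈ A.K t1 := A.mem_K.2 ⟨h2, h3, n0, n2, n3⟩
  exact ⟨t1, t2, t3, h1, h2, h3, n0, n1, n2, n3, A.full_rep h1 hK n1⟩

theorem hfull_s1 {t1 t2 t3 : ℕ} (hT : A.IsT t1 t2 t3) (x y z : ℕ) (h12 : A.S x y 0)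
    (h13 : A.S x 0 z) (h23 : A.S 0 y z) (hn : ¬ (t1 ≤ x ∧ t2 ≤ y ∧ t3 ≤ z)) : A.S x y z := by
  by_contra h
  obtain ⟨u, v, w, a1, a2, a3, a4, a5, a6, a7⟩ := A.exists_min h
  have b1 : 1 ≤ u := by
    by_contra hc
    have : u = 0 := by omega
    subst this
    exact a4 (A.down h23 le_rfl a2 a3)
  have b2 : 1 ≤ v := by
    by_contra hc
    have : v = 0 := by omega
    subst this
    exact a4 (A.down h13 a1 le_rfl a3)
  have b3 : 1 ≤ w := by
    by_contra hc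
    have : w = 0 := by omega
    subst this
    exact a4 (A.down h12 a1 a2 le_rfl)
  have m1 : (u, v, w) ∈ full A.S A.C1 A.C2 A.C3 :=
    A.mem_full'.2 ⟨b1, b2, b3, a4, a5 b1, a6 b2, a7 b3⟩
  have m2 : (t1, t2, t3) ∈ full A.S A.C1 A.C2 A.C3 :=
    A.mem_full'.2 ⟨hT.h1, hT.h2, hT.h3, hT.n0, hT.n1, hT.n2, hT.n3⟩
  have := Finset.card_le_one.1 A.s_le_one _ m1 _ m2
  simp only [Prod.mk.injEq] at this
  omega

theorem hfull_s0 (hs : A.s = 0) (x y z : ℕ) (h12 : A.S x y 0)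
    (h13 : A.S x 0 z) (h23 : A.S 0 y z) : A.S x y z := by
  by_contra h
  obtain ⟨u, v, w, a1, a2, a3, a4, a5, a6, a7⟩ := A.exists_min h
  have b1 : 1 ≤ u := by
    by_contra hc
    have : u = 0 := by omega
    subst this
    exact a4 (A.down h23 le_rfl a2 a3)
  have b2 : 1 ≤ v := by
    by_contra hc
    have : v = 0 := by omega
    subst this
    exact a4 (A.down h13 a1 le_rfl a3)
  have b3 : 1 ≤ w := by
    by_contra hc
    have : w = 0 := by omega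
    subst this
    exact a4 (A.down h12 a1 a2 le_rfl)
  have m1 : (u, v, w) ∈ full A.S A.C1 A.C2 A.C3 :=
    A.mem_full'.2 ⟨b1, b2, b3, a4, a5 b1, a6 b2, a7 b3⟩
  rw [s, Finset.card_eq_zero] at hs
  rw [hs] at m1
  simp at m1

/-- the set of corners above the full corner in the plane `z = 0` -/
noncomputable def Mset (t1 t2 : ℕ) : Finset (ℕ × ℕ) :=
  (cor (fun x y => A.S x y 0) A.C1 A.C2).filter (fun c => t1 ≤ c.1 ∧ t2 ≤ c.2)

theorem Mset_le {t1 t2 t3 : ℕ} (hT : A.IsT t1 t2 t3) : (A.Mset t1 t2).card ≤ t3 := by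
  have hk : ∀ c ∈ A.Mset t1 t2, ∃ k, A.C3 ≤ k + t3 ∧ k < A.C3 ∧
      c.1 • A.e1 + c.2 • A.e2 = k • A.e3 := by
    rintro ⟨a, b⟩ hc
    rw [Mset, Finset.mem_filter] at hc
    have h := A.cf_of_mem hc.1
    obtain ⟨k, hk, e⟩ := CF.rep A h
    exact ⟨k, A.level hT h hc.2.1 hc.2.2 hk e, hk, e⟩
  choose! f hf using hk
  have h1 : (A.Mset t1 t2).card ≤ (Ico (A.C3 - t3) A.C3).card := by
    apply Finset.card_le_card_of_injOn f
    · intro c hc
      have := hf c hc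
      rw [Finset.coe_Ico, Set.mem_Ico]
      omega
    · rintro ⟨a, b⟩ hc ⟨a', b'⟩ hc' hff
      have e1 := (hf _ hc).2.2
      have e2 := (hf _ hc').2.2
      rw [hff, ← e2] at e1
      simp only at e1
      rw [Finset.mem_coe, Mset, Finset.mem_filter] at hc hc'
      have h := A.cf_of_mem hc.1
      have h' := A.cf_of_mem hc'.1
      have main : ∀ {a b a' b' : ℕ}, A.CF a b → A.CF a' b' → a < a' →
          a • A.e1 + b • A.e2 = a' • A.e1 + b' • A.e2 → False := by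
        intro a b a' b' h h' haa e
        have hbb := CF.lt A h h' haa
        obtain ⟨dA, rfl⟩ := Nat.exists_eq_add_of_lt haa
        obtain ⟨dB, rfl⟩ := Nat.exists_eq_add_of_lt hbb
        have s1 : A.S (dA + 1) 0 0 := A.down h'.n2 (by omega) (by omega) le_rfl
        have s2 : A.S 0 (dB + 1) 0 := A.down h.n1 (by omega) (by omega) le_rfl
        have := A.inj s1 s2 (by linear_combination (norm := module) - e)
        omega
      rcases lt_trichotomy a a' with hh | hh | hh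
      · exact (main h h' hh e1).elim
      · subst hh
        rw [CF.eq A h h']
      · exact (main h' h hh e1.symm).elim
  rw [Nat.card_Ico] at h1
  omega

theorem two_of_card {t1 t2 : ℕ} (h : 2 ≤ (A.Mset t1 t2).card) :
    ∃ a b a' b', A.CF a b ∧ A.CF a' b' ∧ t1 ≤ a ∧ t2 ≤ b' ∧ a < a' := by
  obtain ⟨⟨a, b⟩, hc, ⟨a', b'⟩, hc', hne⟩ := Finset.one_lt_card.1 h
  rw [Mset, Finset.mem_filter] at hc hc'
  have h := A.cf_of_mem hc.1
  have h' := A.cf_of_mem hc'.1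
  rcases lt_trichotomy a a' with hh | hh | hh
  · exact ⟨a, b, a', b', h, h', hc.2.1, hc'.2.2, hh⟩
  · subst hh
    exact absurd (by rw [CF.eq A h h']) hne
  · exact ⟨a', b', a, b, h', h, hc'.2.1, hc.2.2, hh⟩

theorem no_two_card {t1 t2 t3 : ℕ} (hT : A.IsT t1 t2 t3) (h : 2 ≤ (A.Mset t1 t2).card)
    (h' : 2 ≤ (A.swap23.Mset t1 t3).card) : False := by
  obtain ⟨a, b, a', b', h1, h2, h3, h4, h5⟩ := A.two_of_card h
  obtain ⟨c, d, c', d', k1, k2, k3, k4, k5⟩ := A.swap23.two_of_card h'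
  exact A.no_two hT h1 h2 h3 h4 h5 k1 k2 k3 k4 k5

theorem Mset_swap (t1 t2 : ℕ) : (A.swap12.Mset t2 t1).card = (A.Mset t1 t2).card := by
  apply Finset.card_bij (fun c _ => (c.2, c.1))
  · intro c hc
    rw [Mset, Finset.mem_filter, mem_cor] at hc ⊢
    obtain ⟨⟨⟨h1, h2⟩, h3, h4, h5, h6, h7⟩, h8, h9⟩ := hc
    exact ⟨⟨⟨h2, h1⟩, h4, h3, h5, h7, h6⟩, h9, h8⟩
  · rintro ⟨a, b⟩ _ ⟨c, d⟩ _ h
    simp only [Prod.mk.injEq] at h ⊢
    exact ⟨h.2, h.1⟩
  · intro c hc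
    rw [Mset, Finset.mem_filter, mem_cor] at hc
    obtain ⟨⟨⟨h1, h2⟩, h3, h4, h5, h6, h7⟩, h8, h9⟩ := hc
    refine ⟨(c.2, c.1), ?_, rfl⟩
    rw [Mset, Finset.mem_filter, mem_cor]
    exact ⟨⟨⟨h2, h1⟩, h4, h3, h5, h7, h6⟩, h9, h8⟩

end St

end Pool.Agent.Helper13.NS
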