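import Mathlib

/-!
# Staircases: order-ideal transversals of a finite abelian group

`St G` is the combinatorial data attached to a four-generated numerical semigroup: a
down-closed set `S` of triples which is a transversal for the map
`(x, y, z) ↦ x e1 + y e2 + z e3` onto a (finite) abelian group `G`.
-/

set_option autoImplicit false

namespace Pool.Agent.Helper13.NS

open Finset Classical

/-- corners (minimal elements of the complement with both coordinates positive) of a planar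
down-closed set, inside the box `X × Y` -/
noncomputable def cor (D : ℕ → ℕ → Prop) (X Y : ℕ) : Finset (ℕ × ℕ) :=
  (range X ×ˢ range Y).filter
    (fun c => 1 ≤ c.1 ∧ 1 ≤ c.2 ∧ ¬ D c.1 c.2 ∧ D (c.1 - 1) c.2 ∧ D c.1 (c.2 - 1))

theorem mem_cor {D : ℕ → ℕ → Prop} {X Y : ℕ} {c : ℕ × ℕ} :
    c ∈ cor D X Y ↔ (c.1 < X ∧ c.2 < Y) ∧
      1 ≤ c.1 ∧ 1 ≤ c.2 ∧ ¬ D c.1 c.2 ∧ D (c.1 - 1) c.2 ∧ D c.1 (c.2 - 1) := by
  simp [cor]

theorem card_cor_swap (D : ℕ → ℕ → Prop) (X Y : ℕ) :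
    (cor (fun a b => D b a) Y X).card = (cor D X Y).card := by
  apply Finset.card_bij (fun c _ => (c.2, c.1))
  · intro c hc
    rw [mem_cor] at hc ⊢
    obtain ⟨⟨h1, h2⟩, h3, h4, h5, h6, h7⟩ := hc
    exact ⟨⟨h2, h1⟩, h4, h3, h5, h7, h6⟩
  · rintro ⟨a, b⟩ _ ⟨c, d⟩ _ h
    simp only [Prod.mk.injEq] at h ⊢
    exact ⟨h.2, h.1⟩
  · intro c hc
    rw [mem_cor] at hc
    obtain ⟨⟨h1, h2⟩, h3, h4, h5, h6, h7⟩ := hc
    refine ⟨(c.2, c.1), ?_, rfl⟩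
    rw [mem_cor]
    exact ⟨⟨h2, h1⟩, h4, h3, h5, h7, h6⟩

/-- minimal non-members with full support -/
noncomputable def full (S : ℕ → ℕ → ℕ → Prop) (X Y Z : ℕ) : Finset (ℕ × ℕ × ℕ) :=
  (range X ×ˢ range Y ×ˢ range Z).filter
    (fun u => 1 ≤ u.1 ∧ 1 ≤ u.2.1 ∧ 1 ≤ u.2.2 ∧ ¬ S u.1 u.2.1 u.2.2 ∧
      S (u.1 - 1) u.2.1 u.2.2 ∧ S u.1 (u.2.1 - 1) u.2.2 ∧ S u.1 u.2.1 (u.2.2 - 1))

theorem mem_full {S : ℕ → ℕ → ℕ → Prop} {X Y Z : ℕ} {u : ℕ × ℕ × ℕ} :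
    u ∈ full S X Y Z ↔ (u.1 < X ∧ u.2.1 < Y ∧ u.2.2 < Z) ∧
      1 ≤ u.1 ∧ 1 ≤ u.2.1 ∧ 1 ≤ u.2.2 ∧ ¬ S u.1 u.2.1 u.2.2 ∧
      S (u.1 - 1) u.2.1 u.2.2 ∧ S u.1 (u.2.1 - 1) u.2.2 ∧ S u.1 u.2.1 (u.2.2 - 1) := by
  simp [full, and_assoc]

/-- the data of a staircase -/
structure St (G : Type) [AddCommGroup G] where
  e1 : G
  e2 : G
  e3 : G
  S : ℕ → ℕ → ℕ → Prop
  down : ∀ {x y z x' y' z' : ℕ}, S x y z → x' ≤ x → y' ≤ y → z' ≤ z → S x' y' z'
  inj : ∀ {x y z x' y' z' : ℕ}, S x y z → S x' y' z' →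
    x • e1 + y • e2 + z • e3 = x' • e1 + y' • e2 + z' • e3 → x = x' ∧ y = y' ∧ z = z'
  surj : ∀ g : G, ∃ x y z : ℕ, S x y z ∧ g = x • e1 + y • e2 + z • e3
  C1 : ℕ
  C2 : ℕ
  C3 : ℕ
  hC1 : ∀ x, S x 0 0 ↔ x < C1
  hC2 : ∀ y, S 0 y 0 ↔ y < C2
  hC3 : ∀ z, S 0 0 z ↔ z < C3
  two1 : 2 ≤ C1
  two2 : 2 ≤ C2
  two3 : 2 ≤ C3
  y1 : ℕ
  z1 : ℕ
  x2 : ℕ
  z2 : ℕ
  x3 : ℕ
  y3 : ℕ
  s1 : S 0 y1 z1
  s2 : S x2 0 z2
  s3 : S x3 y3 0
  f1 : C1 • e1 = y1 • e2 + z1 • e3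
  f2 : C2 • e2 = x2 • e1 + z2 • e3
  f3 : C3 • e3 = x3 • e1 + y3 • e2

namespace St

variable {G : Type} [AddCommGroup G] (A : St G)

/-- exchange the first two coordinates -/
def swap12 : St G where
  e1 := A.e2
  e2 := A.e1
  e3 := A.e3
  S := fun x y z => A.S y x z
  down := fun h h1 h2 h3 => A.down h h2 h1 h3
  inj := fun {x y z x' y' z'} h h' e => by
    have := A.inj h h' (by linear_combination (norm := module) e)
    exact ⟨this.2.1, this.1, this.2.2⟩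
  surj := fun g => by
    obtain ⟨x, y, z, h, e⟩ := A.surj g
    exact ⟨y, x, z, h, by linear_combination (norm := module) e⟩
  C1 := A.C2
  C2 := A.C1
  C3 := A.C3
  hC1 := A.hC2
  hC2 := A.hC1
  hC3 := A.hC3
  two1 := A.two2
  two2 := A.two1
  two3 := A.two3
  y1 := A.x2
  z1 := A.z2
  x2 := A.y1
  z2 := A.z1
  x3 := A.y3
  y3 := A.x3
  s1 := A.s2
  s2 := A.s1
  s3 := A.s3
  f1 := A.f2
  f2 := A.f1
  f3 := by linear_combination (norm := module) A.f3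

/-- exchange the last two coordinates -/
def swap23 : St G where
  e1 := A.e1
  e2 := A.e3
  e3 := A.e2
  S := fun x y z => A.S x z y
  down := fun h h1 h2 h3 => A.down h h1 h3 h2
  inj := fun {x y z x' y' z'} h h' e => by
    have := A.inj h h' (by linear_combination (norm := module) e)
    exact ⟨this.1, this.2.2, this.2.1⟩
  surj := fun g => by
    obtain ⟨x, y, z, h, e⟩ := A.surj g
    exact ⟨x, z, y, h, by linear_combination (norm := module) e⟩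
  C1 := A.C1
  C2 := A.C3
  C3 := A.C2
  hC1 := A.hC1
  hC2 := A.hC3
  hC3 := A.hC2
  two1 := A.two1
  two2 := A.two3
  two3 := A.two2
  y1 := A.z1
  z1 := A.y1
  x2 := A.x3
  z2 := A.y3
  x3 := A.x2
  y3 := A.z2
  s1 := A.s1
  s2 := A.s3
  s3 := A.s2
  f1 := by linear_combination (norm := module) A.f1
  f2 := A.f3
  f3 := A.f2

/-- number of corners in the plane `z = 0` -/
noncomputable def p : ℕ := (cor (fun x y => A.S x y 0) A.C1 A.C2).card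
/-- number of corners in the plane `y = 0` -/
noncomputable def q : ℕ := (cor (fun x z => A.S x 0 z) A.C1 A.C3).card
/-- number of corners in the plane `x = 0` -/
noncomputable def r : ℕ := (cor (fun y z => A.S 0 y z) A.C2 A.C3).card
/-- number of minimal non-members with full support -/
noncomputable def s : ℕ := (full A.S A.C1 A.C2 A.C3).card

theorem p_swap12 : A.swap12.p = A.p := card_cor_swap (fun x y => A.S x y 0) A.C1 A.C2
theorem q_swap12 : A.swap12.q = A.r := rfl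
theorem r_swap12 : A.swap12.r = A.q := rfl
theorem p_swap23 : A.swap23.p = A.q := rfl
theorem q_swap23 : A.swap23.q = A.p := rfl
theorem r_swap23 : A.swap23.r = A.r := card_cor_swap (fun y z => A.S 0 y z) A.C2 A.C3

theorem s_swap12 : A.swap12.s = A.s := by
  apply Finset.card_bij (fun c _ => (c.2.1, c.1, c.2.2))
  · intro c hc
    rw [mem_full] at hc ⊢
    obtain ⟨⟨h1, h2, h3⟩, h4, h5, h6, h7, h8, h9, h10⟩ := hc
    exact ⟨⟨h2, h1, h3⟩, h5, h4, h6, h7, h9, h8, h10⟩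
  · rintro ⟨a, b, c⟩ _ ⟨a', b', c'⟩ _ h
    simp only [Prod.mk.injEq] at h ⊢
    exact ⟨h.2.1, h.1, h.2.2⟩
  · intro c hc
    rw [mem_full] at hc
    obtain ⟨⟨h1, h2, h3⟩, h4, h5, h6, h7, h8, h9, h10⟩ := hc
    refine ⟨(c.2.1, c.1, c.2.2), ?_, rfl⟩
    rw [mem_full]
    exact ⟨⟨h2, h1, h3⟩, h5, h4, h6, h7, h9, h8, h10⟩

theorem s_swap23 : A.swap23.s = A.s := by
  apply Finset.card_bij (fun c _ => (c.1, c.2.2, c.2.1))
  · intro c hc
    rw [mem_full] at hc ⊢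
    obtain ⟨⟨h1, h2, h3⟩, h4, h5, h6, h7, h8, h9, h10⟩ := hc
    exact ⟨⟨h1, h3, h2⟩, h4, h6, h5, h7, h8, h10, h9⟩
  · rintro ⟨a, b, c⟩ _ ⟨a', b', c'⟩ _ h
    simp only [Prod.mk.injEq] at h ⊢
    exact ⟨h.1, h.2.2, h.2.1⟩
  · intro c hc
    rw [mem_full] at hc
    obtain ⟨⟨h1, h2, h3⟩, h4, h5, h6, h7, h8, h9, h10⟩ := hc
    refine ⟨(c.1, c.2.2, c.2.1), ?_, rfl⟩
    rw [mem_full]
    exact ⟨⟨h1, h3, h2⟩, h4, h6, h5, h7, h8, h10, h9⟩

/-! ### Basic facts -/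

theorem ltC1 {x y z : ℕ} (h : A.S x y z) : x < A.C1 :=
  (A.hC1 x).1 (A.down h le_rfl (Nat.zero_le _) (Nat.zero_le _))
theorem ltC2 {x y z : ℕ} (h : A.S x y z) : y < A.C2 :=
  (A.hC2 y).1 (A.down h (Nat.zero_le _) le_rfl (Nat.zero_le _))
theorem ltC3 {x y z : ℕ} (h : A.S x y z) : z < A.C3 :=
  (A.hC3 z).1 (A.down h (Nat.zero_le _) (Nat.zero_le _) le_rfl)

theorem zero_mem : A.S 0 0 0 := (A.hC1 0).2 (by have := A.two1; omega)

/-- representatives of a non-member with `y ≥ 1`, `(x, y-1, z) ∈ S` have `y`-coordinate `0` -/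
theorem rep_y {x y z a b c : ℕ} (h : ¬ A.S x y z) (hy : 1 ≤ y) (h' : A.S x (y - 1) z)
    (hr : A.S a b c)
    (e : x • A.e1 + y • A.e2 + z • A.e3 = a • A.e1 + b • A.e2 + c • A.e3) : b = 0 := by
  by_contra hb
  obtain ⟨y', rfl⟩ : ∃ y', y = y' + 1 := ⟨y - 1, by omega⟩
  obtain ⟨b', rfl⟩ : ∃ b', b = b' + 1 := ⟨b - 1, by omega⟩
  have h1 : A.S a b' c := A.down hr le_rfl (by omega) le_rfl
  have h2 := A.inj h' h1 (by
    simp only [Nat.add_sub_cancel]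
    linear_combination (norm := module) e)
  obtain ⟨ha, hb', hc⟩ := h2
  simp only [Nat.add_sub_cancel] at hb'
  subst ha hb' hc
  exact h hr

theorem rep_x {x y z a b c : ℕ} (h : ¬ A.S x y z) (hy : 1 ≤ x) (h' : A.S (x - 1) y z)
    (hr : A.S a b c)
    (e : x • A.e1 + y • A.e2 + z • A.e3 = a • A.e1 + b • A.e2 + c • A.e3) : a = 0 :=
  A.swap12.rep_y (x := y) (y := x) (z := z) (a := b) (b := a) (c := c) h hy h' hr
    (by show y • A.e2 + x • A.e1 + z • A.e3 = b • A.e2 + a • A.e1 + c • A.e3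
        linear_combination (norm := module) e)

theorem rep_z {x y z a b c : ℕ} (h : ¬ A.S x y z) (hy : 1 ≤ z) (h' : A.S x y (z - 1))
    (hr : A.S a b c)
    (e : x • A.e1 + y • A.e2 + z • A.e3 = a • A.e1 + b • A.e2 + c • A.e3) : c = 0 :=
  A.swap23.rep_y (x := x) (y := z) (z := y) (a := a) (b := c) (c := b) h hy h' hr
    (by show x • A.e1 + z • A.e3 + y • A.e2 = a • A.e1 + c • A.e3 + b • A.e2
        linear_combination (norm := module) e)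

end St

end Pool.Agent.Helper13.NS
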