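import Pool.Agent.Helper13.NS.Ax

set_option autoImplicit false

namespace Pool.Agent.Helper13.NS

open Finset Classical

namespace St

variable {G : Type} [AddCommGroup G] (A : St G)

theorem unused_swap23 {w : ℕ} (h : A.Unused w) : A.swap23.Unused w := by
  refine ⟨h.1, ?_⟩
  intro x y z hK e
  exact h.2 x z y (A.mem_K_swap23.1 hK) (by
    have e' : x • A.e1 + y • A.e3 + z • A.e2 = w • A.e1 := e
    linear_combination (norm := module) e')

theorem no_new (hs : A.s = 0) {x y z : ℕ} (hx : 1 ≤ x) (hK : (y, z) ∈ A.K x) :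
    ¬ A.S (x - 1) y z := by
  intro h
  rw [s, Finset.card_eq_zero] at hs
  have hK' := A.mem_K.1 hK
  have : (x, y, z) ∈ full A.S A.C1 A.C2 A.C3 := by
    rw [mem_full]
    exact ⟨⟨A.ltC1 hK'.2.2.2.1, A.ltC2 hK'.2.2.2.2, A.ltC3 hK'.2.2.2.1⟩, hx, hK'.1, hK'.2.1,
      hK'.2.2.1, h, hK'.2.2.2.1, hK'.2.2.2.2⟩
  rw [hs] at this
  simp at this

/-- `F3 ∈ L`: every `V`-hit of type II is of type I -/
theorem ax1_F3 (hs : A.s = 0) (h3 : A.x3 = 0) (h3' : A.y3 = 0)
    (W : Finset ℕ) (hW : ∀ w ∈ W, A.Unused w) :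
    (1 + A.p + A.q + A.r) + W.card ≤ 2 * A.C1 + 1 := by
  have := A.ax1_one W hW ?_ ?_
  · omega
  · intro x b c k μ h h2
    refine ⟨h.hx, h.hc, h.hb, h.nc, h.nc', h.rect, h.ec, h.hμ, ?_⟩
    by_contra hcon
    have hC : A.swap23.C3 = A.C2 := rfl
    rw [hC] at hcon
    have f3 := A.f3
    rw [h3, h3'] at f3
    obtain ⟨_, hb, hc, _, _, _, _, hk, hkc⟩ := h2
    obtain ⟨d, hd⟩ := Nat.exists_eq_add_of_le hkc
    have hcl := A.ltC3 h.rect
    have h4 : A.S 0 (μ + b) 0 := (A.hC2 _).2 (by omega)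
    have h5 : A.S 0 0 d := (A.hC3 _).2 (by omega)
    have hkc' : k • A.e3 + c • A.e3 = A.C3 • A.e3 + d • A.e3 := by
      rw [← add_smul, ← add_smul, hd]
    have := A.inj h4 h5 (by
      linear_combination (norm := module) h.eb - h.ec + hkc' + f3)
    omega
  · intro x t2 t3 hx hT hT1
    exact absurd hT1 (A.no_new hs hx hT)

theorem ax1_F2 (hs : A.s = 0) (h2 : A.x2 = 0) (h2' : A.z2 = 0)
    (W : Finset ℕ) (hW : ∀ w ∈ W, A.Unused w) :
    (1 + A.p + A.q + A.r) + W.card ≤ 2 * A.C1 + 1 := by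
  have := A.swap23.ax1_F3 (by rw [s_swap23, hs]) h2 h2' W
    (fun w hw => A.unused_swap23 (hW w hw))
  rw [p_swap23, q_swap23, r_swap23] at this
  have hC : A.swap23.C1 = A.C1 := rfl
  omega

/-- the collision case `x2 = x3`, `y3 = z2 = 0` -/
theorem ax1_coll (hx : A.x2 = A.x3) (hy : A.y3 = 0) (hz : A.z2 = 0)
    (W : Finset ℕ) (hW : ∀ w ∈ W, A.Unused w) :
    (1 + A.p + A.q + A.r + A.s) + A.s + W.card ≤ 2 * A.C1 + 1 := by
  have f3 := A.f3
  have f2 := A.f2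
  rw [hy] at f3
  rw [hz, hx] at f2
  apply A.ax1_one W hW
  · intro x b c k μ h h2
    obtain ⟨_, hb, hc, _, _, _, _, hk, hkc⟩ := h2
    have hbl : b < A.C2 := by
      have := A.ltC2 h.nb'
      exact this
    obtain ⟨c', hc'⟩ : ∃ c', A.C3 = k + c' := ⟨A.C3 - k, by omega⟩
    obtain ⟨b', hb'⟩ : ∃ b', A.C2 = b + b' := ⟨A.C2 - b, by omega⟩
    rw [hc'] at f3
    rw [hb'] at f2
    have h5 : A.S 0 b' 0 := (A.hC2 _).2 (by omega)
    rcases Nat.lt_or_ge c' c with hlt | hge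
    · have h4 : A.S x 0 c' := A.down h.rect le_rfl (by omega) (by omega)
      have := A.inj h4 h5 (by linear_combination (norm := module) h.eb + f3 - f2)
      omega
    · have hcc : c' = c := by omega
      subst hcc
      have h6 : A.S 0 μ 0 := (A.hC2 _).2 h.hμ
      have := A.inj h6 h5 (by
        linear_combination (norm := module) h.eb + f3 - f2 - h.ec)
      refine ⟨h.hx, h.hc, h.hb, h.nc, h.nc', h.rect, h.ec, h.hμ, ?_⟩
      show A.C2 ≤ μ + b
      omega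
  · intro x t2 t3 hx1 hT hT1 hh
    have hTk := A.mem_K.1 hT
    obtain ⟨b, k, hb, n1, n2, n3, e, hk⟩ := hh
    obtain ⟨h1, h2⟩ := A.tHit (A.full_rep hx1 hT hT1) hx1 hTk.1 hTk.2.1
      hTk.2.2.2.2 hb n1 n2 n3 e hk
    obtain ⟨_, _, hc, _, _, _, _, _, hkc⟩ := h1
    have hbl : b < A.C2 := A.ltC2 n2
    obtain ⟨c', hc'⟩ : ∃ c', A.C3 = k + c' := ⟨A.C3 - k, by omega⟩
    obtain ⟨b', hb'⟩ : ∃ b', A.C2 = b + b' := ⟨A.C2 - b, by omega⟩
    rw [hc'] at f3
    rw [hb'] at f2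
    have h5 : A.S 0 b' 0 := (A.hC2 _).2 (by omega)
    have h4 : A.S x 0 c' := A.down hTk.2.2.2.1 le_rfl (by omega) (by omega)
    have := A.inj h4 h5 (by linear_combination (norm := module) e + f3 - f2)
    omega

theorem star (A : St G) :
    (1 + A.p + A.q + A.r + A.s) + A.s + (if A.Unused 0 then 1 else 0) ≤
      2 * A.C1 + (if A.x2 = 0 then 1 else 0) + (if A.x3 = 0 then 1 else 0) := by
  obtain ⟨W0, hW0, hW0c, hW0m⟩ : ∃ W0 : Finset ℕ, (∀ w ∈ W0, A.Unused w) ∧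
      W0.card = (if A.Unused 0 then 1 else 0) ∧ ∀ w ∈ W0, w = 0 := by
    by_cases h : A.Unused 0
    · refine ⟨{0}, ?_, by simp [h], by simp⟩
      intro w hw
      rw [Finset.mem_singleton] at hw
      rw [hw]; exact h
    · exact ⟨∅, by simp, by simp [h], by simp⟩
  rw [← hW0c]
  have hadd : ∀ (W : Finset ℕ) (w : ℕ), (∀ w ∈ W, A.Unused w) → w ∉ W → A.Unused w →
      (∀ v ∈ insert w W, A.Unused v) ∧ (insert w W).card = W.card + 1 := by
    intro W w h1 h2 h3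
    refine ⟨?_, Finset.card_insert_of_notMem h2⟩
    intro v hv
    rw [Finset.mem_insert] at hv
    rcases hv with rfl | hv
    · exact h3
    · exact h1 v hv
  by_cases c3 : A.y3 = 0 ∧ A.x3 ≠ 0
  · have hn3 : A.x3 ∉ W0 := fun h => c3.2 (hW0m _ h)
    obtain ⟨g1, g2⟩ := hadd W0 A.x3 hW0 hn3 (A.unused_x3 c3.1)
    by_cases c2 : A.z2 = 0 ∧ A.x2 ≠ 0
    · by_cases hc : A.x2 = A.x3
      · have := A.ax1_coll hc c3.1 c2.1 _ g1
        rw [g2] at this
        omega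
      · have hn2 : A.x2 ∉ insert A.x3 W0 := by
          rw [Finset.mem_insert]
          rintro (h | h)
          · exact hc h
          · exact c2.2 (hW0m _ h)
        obtain ⟨g3, g4⟩ := hadd _ A.x2 g1 hn2 (A.unused_x2 c2.1)
        have := A.ax1 _ g3
        rw [g4, g2] at this
        split_ifs at this ⊢ <;> omega
    · have := A.ax1 _ g1
      rw [g2] at this
      split_ifs at this ⊢ <;> omega
  · by_cases c2 : A.z2 = 0 ∧ A.x2 ≠ 0
    · have hn2 : A.x2 ∉ W0 := fun h => c2.2 (hW0m _ h)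
      obtain ⟨g3, g4⟩ := hadd _ A.x2 hW0 hn2 (A.unused_x2 c2.1)
      have := A.ax1 _ g3
      rw [g4] at this
      split_ifs at this ⊢ <;> omega
    · have := A.ax1 _ hW0
      split_ifs at this ⊢ <;> omega

end St

end Pool.Agent.Helper13.NS
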