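import Pool.Agent.Helper13.NS.Sum

set_option autoImplicit false

namespace Pool.Agent.Helper13.NS

open Finset Classical

theorem two_of_three (P Q R : Prop) [Decidable P] [Decidable Q] [Decidable R]
    (h12 : P ∨ Q) (h13 : P ∨ R) (h23 : Q ∨ R) :
    2 ≤ (if P then 1 else 0) + (if Q then 1 else 0) + (if R then 1 else 0) := by
  split_ifs <;> first | omega | tauto

theorem ite_two (P Q : Prop) [Decidable P] [Decidable Q] (h : ¬ (P ∧ Q)) :
    (if P then 1 else 0) + (if Q then 1 else 0) ≤ 1 := by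
  split_ifs <;> first | omega | tauto

namespace St

variable {G : Type} [AddCommGroup G] (A : St G)

/-- a planar relation `y e2 + z e3 = 0` at a corner -/
def R23 : Prop := ∃ y z, 1 ≤ y ∧ 1 ≤ z ∧ A.S 0 (y - 1) z ∧ A.S 0 y (z - 1) ∧
  y • A.e2 + z • A.e3 = 0
def R13 : Prop := ∃ x z, 1 ≤ x ∧ 1 ≤ z ∧ A.S (x - 1) 0 z ∧ A.S x 0 (z - 1) ∧
  x • A.e1 + z • A.e3 = 0
def R12 : Prop := ∃ x y, 1 ≤ x ∧ 1 ≤ y ∧ A.S (x - 1) y 0 ∧ A.S x (y - 1) 0 ∧
  x • A.e1 + y • A.e2 = 0

theorem slot0 (hs : A.s = 0) (h : ¬ A.Unused 0) : A.R23 ∨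
    ((A.y1 = 0 ∧ A.z1 = 0) ∧ ¬ (A.x2 = 0 ∧ A.z2 = 0) ∧ ¬ (A.x3 = 0 ∧ A.y3 = 0)) := by
  have h0 : ∃ x y z, (y, z) ∈ A.K x ∧ x • A.e1 + y • A.e2 + z • A.e3 = 0 := by
    by_contra hcon
    apply h
    refine ⟨by have := A.two1; omega, ?_⟩
    intro x y z hK e
    exact hcon ⟨x, y, z, hK, by rw [e]; module⟩
  obtain ⟨x, y, z, hK, e⟩ := h0
  have hK' := A.mem_K.1 hK
  obtain ⟨hy, hz, n1, n2, n3⟩ := hK'
  rcases Nat.eq_zero_or_pos x with rfl | hx
  · left
    exact ⟨y, z, hy, hz, n2, n3, by linear_combination (norm := module) e⟩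
  · right
    have hex : ∃ x', ¬ A.S x' y z := ⟨x, n1⟩
    have hf := Nat.find_spec hex
    have hfx : Nat.find hex ≤ x := Nat.find_min' hex n1
    have h00 : Nat.find hex = 0 := by
      by_contra hne
      have h3 : A.S (Nat.find hex - 1) y z := by
        by_contra h4
        have := Nat.find_min' hex h4
        omega
      have h5 : (y, z) ∈ A.K (Nat.find hex) :=
        A.mem_K.2 ⟨hy, hz, hf, A.down n2 hfx le_rfl le_rfl, A.down n3 hfx le_rfl le_rfl⟩
      exact A.no_new hs (Nat.one_le_iff_ne_zero.2 hne) h5 h3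
    rw [h00] at hf
    have hK0 : (y, z) ∈ A.K 0 :=
      A.mem_K.2 ⟨hy, hz, hf, A.down n2 (by omega) le_rfl le_rfl,
        A.down n3 (by omega) le_rfl le_rfl⟩
    obtain ⟨ρ, hρ, e2⟩ := A.aci_slot hK0
    have hge : A.C1 ≤ x + ρ := by
      by_contra hcon
      have := A.inj ((A.hC1 (x + ρ)).2 (by omega)) A.zero_mem
        (by linear_combination (norm := module) e - e2)
      omega
    obtain ⟨x', hx'⟩ := Nat.exists_eq_add_of_le hge
    obtain ⟨d, hd⟩ : ∃ d, x = x' + d := ⟨x - x', by omega⟩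
    have hd1 : 1 ≤ d := by omega
    have f1 := A.f1
    have key : A.y1 • A.e2 + A.z1 • A.e3 = d • A.e1 + y • A.e2 + z • A.e3 := by
      have e3 : (x + ρ) • A.e1 = (A.C1 + x') • A.e1 := by rw [hx']
      rw [hd] at e3 e
      linear_combination (norm := module) -e3 - f1 - e2
    have s1 := A.s1
    have hFF : A.y1 = 0 ∧ A.z1 = 0 := by
      rcases le_or_gt y A.y1 with h1 | h1 <;> rcases le_or_gt z A.z1 with h2 | h2
      · obtain ⟨u, hu⟩ := Nat.exists_eq_add_of_le h1
        obtain ⟨v, hv⟩ := Nat.exists_eq_add_of_le h2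
        rw [hu, hv] at key
        have h4 : A.S 0 u v := A.down s1 le_rfl (by omega) (by omega)
        have h5 : A.S d 0 0 := A.down n2 (by omega) (by omega) (by omega)
        have := A.inj h4 h5 (by linear_combination (norm := module) key)
        omega
      · obtain ⟨u, hu⟩ := Nat.exists_eq_add_of_le h1
        obtain ⟨v, hv⟩ := Nat.exists_eq_add_of_lt h2
        rw [hu, hv] at key
        have h4 : A.S 0 u 0 := A.down s1 le_rfl (by omega) (by omega)
        have h5 : A.S d 0 (v + 1) := A.down n2 (by omega) (by omega) (by omega)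
        have := A.inj h4 h5 (by linear_combination (norm := module) key)
        omega
      · obtain ⟨u, hu⟩ := Nat.exists_eq_add_of_lt h1
        obtain ⟨v, hv⟩ := Nat.exists_eq_add_of_le h2
        rw [hu, hv] at key
        have h4 : A.S 0 0 v := A.down s1 le_rfl (by omega) (by omega)
        have h5 : A.S d (u + 1) 0 := A.down n3 (by omega) (by omega) (by omega)
        have := A.inj h4 h5 (by linear_combination (norm := module) key)
        omega
      · obtain ⟨u, hu⟩ := Nat.exists_eq_add_of_lt h1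
        obtain ⟨v, hv⟩ := Nat.exists_eq_add_of_lt h2
        rw [hu, hv] at key
        by_contra hcon
        have h5 : A.S d (u + 1) (v + 1) := by
          rcases Nat.eq_zero_or_pos A.y1 with h6 | h6
          · have : 1 ≤ A.z1 := by omega
            exact A.down n3 (by omega) (by omega) (by omega)
          · exact A.down n2 (by omega) (by omega) (by omega)
        have := A.inj h5 A.zero_mem (by linear_combination (norm := module) - key)
        omega
    refine ⟨hFF, ?_, ?_⟩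
    · rintro ⟨h1, h2⟩
      have f2 := A.f2
      have hyC := A.ltC2 n3
      obtain ⟨u, hu⟩ := Nat.exists_eq_add_of_lt hyC
      rw [h1, h2, hu] at f2
      have h4 : A.S x 0 z := A.down n2 le_rfl (by omega) le_rfl
      have h5 : A.S 0 (u + 1) 0 := (A.hC2 _).2 (by omega)
      have := A.inj h4 h5 (by linear_combination (norm := module) e - f2)
      omega
    · rintro ⟨h1, h2⟩
      have f3 := A.f3
      have hzC := A.ltC3 n2
      obtain ⟨u, hu⟩ := Nat.exists_eq_add_of_lt hzC
      rw [h1, h2, hu] at f3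
      have h4 : A.S x y 0 := A.down n3 le_rfl le_rfl (by omega)
      have h5 : A.S 0 0 (u + 1) := (A.hC3 _).2 (by omega)
      have := A.inj h4 h5 (by linear_combination (norm := module) e - f3)
      omega

theorem R23_F2 (h : A.R23) (h2 : A.x2 = 0) (h2' : A.z2 = 0) : False := by
  obtain ⟨y, z, hy, hz, n1, n2, e⟩ := h
  have hyC := A.ltC2 n2
  obtain ⟨u, hu⟩ := Nat.exists_eq_add_of_lt hyC
  have f2 := A.f2
  rw [h2, h2', hu] at f2
  have h4 : A.S 0 0 z := A.down n1 le_rfl (by omega) le_rfl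
  have h5 : A.S 0 (u + 1) 0 := (A.hC2 _).2 (by omega)
  have := A.inj h4 h5 (by linear_combination (norm := module) e - f2)
  omega

theorem R13_F1 (h : A.R13) (h2 : A.y1 = 0) (h2' : A.z1 = 0) : False :=
  A.swap12.R23_F2 h h2 h2'

theorem R12_F1 (h : A.R12) (h2 : A.y1 = 0) (h2' : A.z1 = 0) : False :=
  A.swap23.swap12.R23_F2 h h2' h2

theorem R23_R13 (h : A.R23) (h' : A.R13) : False := by
  obtain ⟨y, z, hy, hz, n1, n2, e⟩ := h
  obtain ⟨x', z', hx', hz', n1', n2', e'⟩ := h'
  rcases le_or_gt z z' with h1 | h1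
  · obtain ⟨u, hu⟩ := Nat.exists_eq_add_of_le h1
    rw [hu] at e'
    have h4 : A.S x' 0 u := A.down n2' le_rfl (by omega) (by omega)
    have h5 : A.S 0 y 0 := A.down n2 le_rfl le_rfl (by omega)
    have := A.inj h4 h5 (by linear_combination (norm := module) e' - e)
    omega
  · obtain ⟨u, hu⟩ := Nat.exists_eq_add_of_lt h1
    rw [hu] at e
    have h4 : A.S x' 0 0 := A.down n2' le_rfl (by omega) (by omega)
    have h5 : A.S 0 y (u + 1) := A.down n2 le_rfl le_rfl (by omega)
    have := A.inj h4 h5 (by linear_combination (norm := module) e' - e)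
    omega

theorem R23_swap (h : A.R23) : A.swap23.R23 := by
  obtain ⟨y, z, hy, hz, n1, n2, e⟩ := h
  exact ⟨z, y, hz, hy, n2, n1, by
    show z • A.e3 + y • A.e2 = 0
    linear_combination (norm := module) e⟩

theorem R23_R12 (h : A.R23) (h' : A.R12) : False :=
  A.swap23.R23_R13 (A.R23_swap h) h'

theorem R13_R12 (h : A.R13) (h' : A.R12) : False := by
  have h1 : A.swap12.R12 := by
    obtain ⟨x, y, hx, hy, n1, n2, e⟩ := h'
    exact ⟨y, x, hy, hx, n2, n1, by
      show y • A.e2 + x • A.e1 = 0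
      linear_combination (norm := module) e⟩
  exact A.swap12.R23_R12 h h1

theorem caseZ1 (hs : A.s = 0) (h1 : A.y1 = 0 ∧ A.z1 = 0) (h2 : ¬ (A.x2 = 0 ∧ A.z2 = 0))
    (h3 : ¬ (A.x3 = 0 ∧ A.y3 = 0)) :
    3 * (1 + A.p + A.q + A.r) ≤ 2 * (A.C1 + A.C2 + A.C3) := by
  have st := A.star
  rw [hs] at st
  -- axis 2
  have k2 : (1 + A.p + A.q + A.r) + (if A.x3 = 0 then 1 else 0) ≤ 2 * A.C2 := by
    have hs2 : A.swap12.s = 0 := by rw [s_swap12, hs]
    have hU : A.swap12.Unused 0 := by
      by_contra hU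
      rcases A.swap12.slot0 hs2 hU with h | h
      · exact A.R13_F1 h h1.1 h1.2
      · exact h2 h.1
    by_cases hx3 : A.x3 = 0
    · have hU3 : A.swap12.Unused A.y3 := A.swap12.unused_x3 hx3
      have hne : (0 : ℕ) ∉ ({A.y3} : Finset ℕ) := by
        rw [Finset.mem_singleton]
        intro h
        exact h3 ⟨hx3, h.symm⟩
      have := A.swap12.ax1_F2 hs2 h1.1 h1.2 (insert 0 {A.y3}) (by
        intro w hw
        rw [Finset.mem_insert, Finset.mem_singleton] at hw
        rcases hw with rfl | rfl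
        · exact hU
        · exact hU3)
      rw [Finset.card_insert_of_notMem hne, Finset.card_singleton, p_swap12, q_swap12,
        r_swap12] at this
      have hC : A.swap12.C1 = A.C2 := rfl
      rw [if_pos hx3]
      omega
    · have := A.swap12.ax1_F2 hs2 h1.1 h1.2 {0} (by
        intro w hw
        rw [Finset.mem_singleton] at hw
        rw [hw]; exact hU)
      rw [Finset.card_singleton, p_swap12, q_swap12, r_swap12] at this
      have hC : A.swap12.C1 = A.C2 := rfl
      rw [if_neg hx3]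
      omega
  have k3 : (1 + A.p + A.q + A.r) + (if A.x2 = 0 then 1 else 0) ≤ 2 * A.C3 := by
    have hs2 : A.swap23.swap12.s = 0 := by rw [s_swap12, s_swap23, hs]
    have hp : A.swap23.swap12.p = A.q := by rw [p_swap12, p_swap23]
    have hq : A.swap23.swap12.q = A.r := by rw [q_swap12, r_swap23]
    have hr : A.swap23.swap12.r = A.p := by rw [r_swap12, q_swap23]
    have hU : A.swap23.swap12.Unused 0 := by
      by_contra hU
      rcases A.swap23.swap12.slot0 hs2 hU with h | h
      · exact A.R12_F1 h h1.1 h1.2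
      · exact h3 h.1
    have hC : A.swap23.swap12.C1 = A.C3 := rfl
    by_cases hx2 : A.x2 = 0
    · have hU3 : A.swap23.swap12.Unused A.z2 := A.swap23.swap12.unused_x3 hx2
      have hne : (0 : ℕ) ∉ ({A.z2} : Finset ℕ) := by
        rw [Finset.mem_singleton]
        intro h
        exact h2 ⟨hx2, h.symm⟩
      have := A.swap23.swap12.ax1_F2 hs2 h1.2 h1.1 (insert 0 {A.z2}) (by
        intro w hw
        rw [Finset.mem_insert, Finset.mem_singleton] at hw
        rcases hw with rfl | rfl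
        · exact hU
        · exact hU3)
      rw [Finset.card_insert_of_notMem hne, Finset.card_singleton, hp, hq, hr] at this
      rw [if_pos hx2]
      omega
    · have := A.swap23.swap12.ax1_F2 hs2 h1.2 h1.1 {0} (by
        intro w hw
        rw [Finset.mem_singleton] at hw
        rw [hw]; exact hU)
      rw [Finset.card_singleton, hp, hq, hr] at this
      rw [if_neg hx2]
      omega
  omega

theorem caseZ12 (hs : A.s = 0) (h1 : A.y1 = 0 ∧ A.z1 = 0) (h2 : A.x2 = 0 ∧ A.z2 = 0) :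
    3 * (1 + A.p + A.q + A.r) ≤ 2 * (A.C1 + A.C2 + A.C3) := by
  have k1 : (1 + A.p + A.q + A.r) ≤ 2 * A.C1 := by
    have hU : A.Unused 0 := by
      by_contra hU
      rcases A.slot0 hs hU with h | h
      · exact A.R23_F2 h h2.1 h2.2
      · exact h.2.1 h2
    have := A.ax1_F2 hs h2.1 h2.2 {0} (by
        intro w hw
        rw [Finset.mem_singleton] at hw
        rw [hw]; exact hU)
    rw [Finset.card_singleton] at this
    omega
  have k2 : (1 + A.p + A.q + A.r) ≤ 2 * A.C2 := by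
    have hs2 : A.swap12.s = 0 := by rw [s_swap12, hs]
    have hU : A.swap12.Unused 0 := by
      by_contra hU
      rcases A.swap12.slot0 hs2 hU with h | h
      · exact A.R13_F1 h h1.1 h1.2
      · exact h.2.1 h1
    have := A.swap12.ax1_F2 hs2 h1.1 h1.2 {0} (by
        intro w hw
        rw [Finset.mem_singleton] at hw
        rw [hw]; exact hU)
    rw [Finset.card_singleton, p_swap12, q_swap12, r_swap12] at this
    have hC : A.swap12.C1 = A.C2 := rfl
    omega
  have k3 : (1 + A.p + A.q + A.r) ≤ 2 * A.C3 := by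
    have hs2 : A.swap23.swap12.s = 0 := by rw [s_swap12, s_swap23, hs]
    have hp : A.swap23.swap12.p = A.q := by rw [p_swap12, p_swap23]
    have hq : A.swap23.swap12.q = A.r := by rw [q_swap12, r_swap23]
    have hr : A.swap23.swap12.r = A.p := by rw [r_swap12, q_swap23]
    have hU : A.swap23.swap12.Unused 0 := by
      by_contra hU
      rcases A.swap23.swap12.slot0 hs2 hU with h | h
      · exact A.R12_F1 h h1.1 h1.2
      · exact h.2.1 ⟨h1.2, h1.1⟩
    have hC : A.swap23.swap12.C1 = A.C3 := rfl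
    have := A.swap23.swap12.ax1_F2 hs2 h1.2 h1.1 {0} (by
        intro w hw
        rw [Finset.mem_singleton] at hw
        rw [hw]; exact hU)
    rw [Finset.card_singleton, hp, hq, hr] at this
    omega
  omega

theorem caseZ0 (hs : A.s = 0) (h1 : ¬ (A.y1 = 0 ∧ A.z1 = 0)) (h2 : ¬ (A.x2 = 0 ∧ A.z2 = 0))
    (h3 : ¬ (A.x3 = 0 ∧ A.y3 = 0)) :
    3 * (1 + A.p + A.q + A.r) ≤ 2 * (A.C1 + A.C2 + A.C3) + 1 := by
  have hs2 : A.swap12.s = 0 := by rw [s_swap12, hs]
  have hs3 : A.swap23.swap12.s = 0 := by rw [s_swap12, s_swap23, hs]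
  have st1 := A.star
  have st2 := A.swap12.star
  have st3 := A.swap23.swap12.star
  have hp : A.swap23.swap12.p = A.q := by rw [p_swap12, p_swap23]
  have hq : A.swap23.swap12.q = A.r := by rw [q_swap12, r_swap23]
  have hr : A.swap23.swap12.r = A.p := by rw [r_swap12, q_swap23]
  rw [hs] at st1
  rw [hs2, p_swap12, q_swap12, r_swap12] at st2
  rw [hs3, hp, hq, hr] at st3
  have a1 : A.swap12.C1 = A.C2 := rfl
  have a2 : A.swap12.x2 = A.y1 := rfl
  have a3 : A.swap12.x3 = A.y3 := rfl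
  have b1 : A.swap23.swap12.C1 = A.C3 := rfl
  have b2 : A.swap23.swap12.x2 = A.z1 := rfl
  have b3 : A.swap23.swap12.x3 = A.z2 := rfl
  rw [a1, a2, a3] at st2
  rw [b1, b2, b3] at st3
  have u1 : ¬ A.Unused 0 → A.R23 := by
    intro h
    rcases A.slot0 hs h with h' | h'
    · exact h'
    · exact absurd h'.1 h1
  have u2 : ¬ A.swap12.Unused 0 → A.R13 := by
    intro h
    rcases A.swap12.slot0 hs2 h with h' | h'
    · exact h'
    · exact absurd h'.1 h2
  have u3 : ¬ A.swap23.swap12.Unused 0 → A.R12 := by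
    intro h
    rcases A.swap23.swap12.slot0 hs3 h with h' | h'
    · exact h'
    · exact absurd h'.1 h3
  have v12 := A.R23_R13
  have v13 := A.R23_R12
  have v23 := A.R13_R12
  have w12 : A.Unused 0 ∨ A.swap12.Unused 0 := by
    by_contra h; push Not at h; exact v12 (u1 h.1) (u2 h.2)
  have w13 : A.Unused 0 ∨ A.swap23.swap12.Unused 0 := by
    by_contra h; push Not at h; exact v13 (u1 h.1) (u3 h.2)
  have w23 : A.swap12.Unused 0 ∨ A.swap23.swap12.Unused 0 := by
    by_contra h; push Not at h; exact v23 (u2 h.1) (u3 h.2)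
  have z1 := ite_two (A.y1 = 0) (A.z1 = 0) h1
  have z2 := ite_two (A.x2 = 0) (A.z2 = 0) h2
  have z3 := ite_two (A.x3 = 0) (A.y3 = 0) h3
  have hσ := two_of_three (A.Unused 0) (A.swap12.Unused 0) (A.swap23.swap12.Unused 0)
    w12 w13 w23
  omega

theorem sum_s0 (hs : A.s = 0) :
    3 * (1 + A.p + A.q + A.r) ≤ 2 * (A.C1 + A.C2 + A.C3) + 1 := by
  by_cases h1 : A.y1 = 0 ∧ A.z1 = 0 <;> by_cases h2 : A.x2 = 0 ∧ A.z2 = 0
  · have := A.caseZ12 hs h1 h2; omega
  · by_cases h3 : A.x3 = 0 ∧ A.y3 = 0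
    · have := A.swap23.caseZ12 (by rw [s_swap23, hs]) ⟨h1.2, h1.1⟩ h3
      rw [p_swap23, q_swap23, r_swap23] at this
      have a1 : A.swap23.C1 = A.C1 := rfl
      have a2 : A.swap23.C2 = A.C3 := rfl
      have a3 : A.swap23.C3 = A.C2 := rfl
      omega
    · have := A.caseZ1 hs h1 h2 h3; omega
  · by_cases h3 : A.x3 = 0 ∧ A.y3 = 0
    · have := A.swap12.swap23.caseZ12 (by rw [s_swap23, s_swap12, hs]) ⟨h2.2, h2.1⟩
        ⟨h3.2, h3.1⟩
      rw [p_swap23, q_swap23, r_swap23, p_swap12, q_swap12, r_swap12] at this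
      have a1 : A.swap12.swap23.C1 = A.C2 := rfl
      have a2 : A.swap12.swap23.C2 = A.C3 := rfl
      have a3 : A.swap12.swap23.C3 = A.C1 := rfl
      omega
    · have := A.swap12.caseZ1 (by rw [s_swap12, hs]) h2 h1 (fun h => h3 ⟨h.2, h.1⟩)
      rw [p_swap12, q_swap12, r_swap12] at this
      have a1 : A.swap12.C1 = A.C2 := rfl
      have a2 : A.swap12.C2 = A.C1 := rfl
      have a3 : A.swap12.C3 = A.C3 := rfl
      omega
  · by_cases h3 : A.x3 = 0 ∧ A.y3 = 0
    · have := A.swap23.swap12.caseZ1 (by rw [s_swap12, s_swap23, hs]) h3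
        (fun h => h1 ⟨h.2, h.1⟩) (fun h => h2 ⟨h.2, h.1⟩)
      rw [p_swap12, q_swap12, r_swap12, p_swap23, q_swap23, r_swap23] at this
      have a1 : A.swap23.swap12.C1 = A.C3 := rfl
      have a2 : A.swap23.swap12.C2 = A.C1 := rfl
      have a3 : A.swap23.swap12.C3 = A.C2 := rfl
      omega
    · exact A.caseZ0 hs h1 h2 h3

/-- with a full corner the six representatives have at most three zero coordinates -/
theorem sum_s1 (hs : A.s = 1) :
    3 * (2 + A.p + A.q + A.r) ≤ 2 * (A.C1 + A.C2 + A.C3) := by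
  have hs2 : A.swap12.s = 1 := by rw [s_swap12, hs]
  have hs3 : A.swap23.swap12.s = 1 := by rw [s_swap12, s_swap23, hs]
  have st1 := A.star
  have st2 := A.swap12.star
  have st3 := A.swap23.swap12.star
  have hp : A.swap23.swap12.p = A.q := by rw [p_swap12, p_swap23]
  have hq : A.swap23.swap12.q = A.r := by rw [q_swap12, r_swap23]
  have hr : A.swap23.swap12.r = A.p := by rw [r_swap12, q_swap23]
  rw [hs] at st1
  rw [hs2, p_swap12, q_swap12, r_swap12] at st2
  rw [hs3, hp, hq, hr] at st3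
  have a1 : A.swap12.C1 = A.C2 := rfl
  have a2 : A.swap12.x2 = A.y1 := rfl
  have a3 : A.swap12.x3 = A.y3 := rfl
  have b1 : A.swap23.swap12.C1 = A.C3 := rfl
  have b2 : A.swap23.swap12.x2 = A.z1 := rfl
  have b3 : A.swap23.swap12.x3 = A.z2 := rfl
  rw [a1, a2, a3] at st2
  rw [b1, b2, b3] at st3
  obtain ⟨⟨t1, t2, t3⟩, hT⟩ : (full A.S A.C1 A.C2 A.C3).Nonempty := by
    rw [← Finset.card_pos]
    have : A.s = (full A.S A.C1 A.C2 A.C3).card := rfl
    omega
  rw [mem_full] at hT
  obtain ⟨⟨l1, l2, l3⟩, h1, h2, h3, n0, n1, n2, n3⟩ := hT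
  simp only at l1 l2 l3 h1 h2 h3 n0 n1 n2 n3
  have hK : (t2, t3) ∈ A.K t1 := A.mem_K.2 ⟨h2, h3, n0, n2, n3⟩
  have e := A.full_rep h1 hK n1
  have g1 : ¬ (A.y1 = 0 ∧ A.z1 = 0) := by
    rintro ⟨hy, hz⟩
    obtain ⟨u, hu⟩ := Nat.exists_eq_add_of_lt l1
    have f1 := A.f1
    rw [hy, hz, hu] at f1
    have h4 : A.S 0 t2 t3 := A.down n1 (by omega) le_rfl le_rfl
    have h5 : A.S (u + 1) 0 0 := (A.hC1 _).2 (by omega)
    have := A.inj h4 h5 (by linear_combination (norm := module) e - f1)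
    omega
  have g2 : ¬ (A.x2 = 0 ∧ A.z2 = 0) := by
    rintro ⟨hy, hz⟩
    obtain ⟨u, hu⟩ := Nat.exists_eq_add_of_lt l2
    have f2 := A.f2
    rw [hy, hz, hu] at f2
    have h4 : A.S t1 0 t3 := A.down n2 le_rfl (by omega) le_rfl
    have h5 : A.S 0 (u + 1) 0 := (A.hC2 _).2 (by omega)
    have := A.inj h4 h5 (by linear_combination (norm := module) e - f2)
    omega
  have g3 : ¬ (A.x3 = 0 ∧ A.y3 = 0) := by
    rintro ⟨hy, hz⟩
    obtain ⟨u, hu⟩ := Nat.exists_eq_add_of_lt l3
    have f3 := A.f3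
    rw [hy, hz, hu] at f3
    have h4 : A.S t1 t2 0 := A.down n3 le_rfl le_rfl (by omega)
    have h5 : A.S 0 0 (u + 1) := (A.hC3 _).2 (by omega)
    have := A.inj h4 h5 (by linear_combination (norm := module) e - f3)
    omega
  have z1 := ite_two (A.y1 = 0) (A.z1 = 0) g1
  have z2 := ite_two (A.x2 = 0) (A.z2 = 0) g2
  have z3 := ite_two (A.x3 = 0) (A.y3 = 0) g3
  omega

end St

end Pool.Agent.Helper13.NS
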